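import Pool.Agent.helper22.Nut.Defs

/-!
# Kernel-checkable certificates for pieces of regular nut graphs
-/

namespace Pool.Agent.helper40.NutCheck

open Pool.Agent.helper22.Nut

/-! ### Loops -/

/-- all `i < n` satisfy `f` -/
noncomputable def allB (f : ℕ → Bool) (n : ℕ) : Bool :=
  Nat.rec true (fun k ih => Bool.rec false ih (f k)) n

/-- `∑ i < n, f i` -/
noncomputable def sumB (f : ℕ → ℕ) (n : ℕ) : ℕ :=
  Nat.rec 0 (fun k ih => Nat.add (f k) ih) n

theorem allB_iff (f : ℕ → Bool) (n : ℕ) : allB f n = true ↔ ∀ i < n, f i = true := by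
  induction n with
  | zero => simp [allB]
  | succ n ih =>
    have : allB f (n + 1) = Bool.rec false (allB f n) (f n) := rfl
    rw [this]
    cases h : f n with
    | false => simp only [Bool.false_eq_true, false_iff, not_forall]
               exact ⟨n, Nat.lt_succ_self n, by simp [h]⟩
    | true =>
      simp only
      rw [ih]
      constructor
      · intro H i hi
        rcases Nat.lt_succ_iff_lt_or_eq.1 hi with h1 | h1
        · exact H i h1
        · rw [h1]; exact h
      · intro H i hi; exact H i (Nat.lt_succ_of_lt hi)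

theorem sumB_eq (f : ℕ → ℕ) (n : ℕ) : sumB f n = ∑ i ∈ Finset.range n, f i := by
  induction n with
  | zero => simp [sumB]
  | succ n ih =>
    have : sumB f (n + 1) = f n + sumB f n := rfl
    rw [this, ih, Finset.sum_range_succ, add_comm]

theorem sumB_fin (f : ℕ → ℕ) (n : ℕ) : sumB f n = ∑ i : Fin n, f i := by
  rw [sumB_eq, Finset.sum_range]

/-! ### Packing -/

theorem pack_inj (b : ℕ) (hb : 0 < b) : ∀ (m : ℕ) (f g : ℕ → ℕ), (∀ j < m, f j < b) →
    (∀ j < m, g j < b) →
    ∑ j ∈ Finset.range m, f j * b ^ j = ∑ j ∈ Finset.range m, g j * b ^ j →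
    ∀ j < m, f j = g j := by
  intro m
  induction m with
  | zero => intro f g _ _ _ j hj; omega
  | succ m ih =>
    intro f g hf hg h
    rw [Finset.sum_range_succ', Finset.sum_range_succ'] at h
    have e1 : ∀ f : ℕ → ℕ, ∑ j ∈ Finset.range m, f (j + 1) * b ^ (j + 1) =
        b * ∑ j ∈ Finset.range m, f (j + 1) * b ^ j := by
      intro f
      rw [Finset.mul_sum]
      refine Finset.sum_congr rfl fun j _ => ?_
      rw [pow_succ]; ring
    rw [e1, e1, pow_zero, mul_one, mul_one] at h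
    have h0 : f 0 = g 0 := by
      have := congrArg (· % b) h
      simp only [Nat.mul_add_mod] at this
      rwa [Nat.mod_eq_of_lt (hf 0 (by omega)), Nat.mod_eq_of_lt (hg 0 (by omega))] at this
    rw [h0] at h
    have h2 := Nat.eq_of_mul_eq_mul_left hb (Nat.add_right_cancel h)
    intro j hj
    cases j with
    | zero => exact h0
    | succ j =>
      exact ih (fun j => f (j + 1)) (fun j => g (j + 1)) (fun j hj => hf _ (by omega))
        (fun j hj => hg _ (by omega)) h2 j (by omega)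

theorem pack_digits (b : ℕ) (N m : ℕ) :
    ∑ j ∈ Finset.range m, (N / b ^ j % b) * b ^ j = N % b ^ m := by
  induction m with
  | zero => simp [Nat.mod_one]
  | succ m ih => rw [Finset.sum_range_succ, ih, Nat.mod_pow_succ]; ring

/-! ### Determinants modulo `p` -/

theorem det_ne_zero_of_mod {m : ℕ} (B R : Matrix (Fin m) (Fin m) ℤ) (p : ℕ) (hp : 2 ≤ p)
    (h : ∀ i j, (p : ℤ) ∣ (B * R) i j - (if i = j then 1 else 0)) : B.det ≠ 0 := by
  intro h0
  have : Fact (1 < p) := ⟨by omega⟩
  have : Nontrivial (ZMod p) := inferInstance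
  have e : (B.map (Int.castRingHom (ZMod p))) * (R.map (Int.castRingHom (ZMod p))) = 1 := by
    rw [← Matrix.map_mul]
    ext i j
    rw [Matrix.map_apply, Matrix.one_apply]
    have := (ZMod.intCast_zmod_eq_zero_iff_dvd _ p).2 (h i j)
    rw [Int.cast_sub, sub_eq_zero] at this
    change (((B * R) i j : ℤ) : ZMod p) = _
    rw [this]
    split_ifs <;> simp
  have e2 := congrArg Matrix.det e
  rw [Matrix.det_mul, Matrix.det_one, ← RingHom.mapMatrix_apply, ← RingHom.map_det, h0,
    map_zero, zero_mul] at e2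
  exact zero_ne_one e2

/-! ### Data -/

/-- bit `i` of `N` as a number -/
def bn (N i : ℕ) : ℕ := Nat.mod (Nat.shiftRight N i) 2

/-- bit `i` of `N` as a Boolean -/
def bt (N i : ℕ) : Bool := Nat.beq (bn N i) 1

theorem bn_lt (N i : ℕ) : bn N i < 2 := Nat.mod_lt _ (by norm_num)

theorem bit_bt (N i : ℕ) : bit (bt N i) = (bn N i : ℝ) := by
  have := bn_lt N i
  unfold bt bit
  interval_cases h : bn N i <;> simp

/-- adjacency as a number, row `u`, column `v`, stride `n` -/
def an (n N u v : ℕ) : ℕ := bn N (Nat.add (Nat.mul n u) v)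

/-- pattern as a number -/
def tn (q : Bool) (ty u v : ℕ) : ℕ :=
  Bool.rec 0 (Nat.mod (Nat.add (Nat.add (bn ty u) (bn ty v)) 1) 2) q

theorem bit_tn (q : Bool) (ty u v : ℕ) : bit (q && (bt ty u == bt ty v)) = (tn q ty u v : ℝ) := by
  have h1 := bn_lt ty u
  have h2 := bn_lt ty v
  unfold bt tn bit
  cases q with
  | false => simp
  | true =>
    interval_cases h : bn ty u <;> interval_cases h' : bn ty v <;>
      first
      | simp; done
      | (have e1 : Nat.mod 1 2 = 1 := rfl
         simp [e1])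

/-- field `u` of width `w` of `X` -/
def fld (X w u : ℕ) : ℕ := Nat.mod (Nat.shiftRight X (Nat.mul w u)) (Nat.pow 2 w)

theorem fld_eq (X w u : ℕ) : fld X w u = X / (2 ^ w) ^ u % 2 ^ w := by
  unfold fld
  change (X >>> (w * u)) % 2 ^ w = _
  rw [Nat.shiftRight_eq_div_pow, pow_mul]

/-- signed field -/
def sfld (X w u : ℕ) : ℤ := (fld X w u : ℤ) - (2 ^ (w - 1) : ℕ)

/-! ### The checker for pieces -/

/-- `∑ u < l, A v u * f u` -/
noncomputable def asum (n N v : ℕ) (f : ℕ → ℕ) (l : ℕ) : ℕ :=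
  sumB (fun u => Nat.mul (an n N v u) (f u)) l

/-- `∑ u < l, Q v u * f u` -/
noncomputable def tsm (q : Bool) (ty v : ℕ) (f : ℕ → ℕ) (l : ℕ) : ℕ :=
  sumB (fun u => Nat.mul (tn q ty v u) (f u)) l

/-- row `u` of the packed inverse modulo `p` -/
def rr (L w m u : ℕ) : ℕ := fld L (Nat.mul w m) u

/-- the packed row `v` of the product, minus the unit row, shifted by `K p` in every field -/
noncomputable def dd (q : Bool) (m N ty L w p K v : ℕ) : ℕ :=
  Nat.sub (Nat.sub (Nat.add (asum (Nat.succ m) N v (rr L w m) m)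
    (Nat.mul (Nat.mul K p) (Nat.div (Nat.sub (Nat.pow (Nat.pow 2 w) m) 1)
      (Nat.sub (Nat.pow 2 w) 1))))
    (tsm q ty v (rr L w m) m)) (Nat.pow (Nat.pow 2 w) v)

/-- symmetric, irreflexive -/
noncomputable def chkAdj (m N : ℕ) : Bool :=
  Bool.and (allB (fun u => allB (fun v => Nat.beq (an (Nat.succ m) N u v) (an (Nat.succ m) N v u))
    u) (Nat.succ m)) (allB (fun u => Nat.beq (an (Nat.succ m) N u u) 0) (Nat.succ m))

/-- row sums -/
noncomputable def chkDeg (q : Bool) (m N ty : ℕ) (c0 c1 : ℤ) : Bool :=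
  allB (fun v => decide (((asum (Nat.succ m) N v (fun _ => 1) (Nat.succ m) : ℕ) : ℤ) =
    (Bool.rec c0 c1 (bt ty v) : ℤ) + ((tsm q ty v (fun _ => 1) (Nat.succ m) : ℕ) : ℤ)))
    (Nat.succ m)

/-- kernel vector -/
noncomputable def chkX (q : Bool) (m N ty X wx : ℕ) : Bool :=
  Bool.and (allB (fun v => Bool.not (Nat.beq (fld X wx v) (Nat.pow 2 (Nat.pred wx))))
    (Nat.succ m))
  (Bool.and (allB (fun v => Nat.beq
      (Nat.add (asum (Nat.succ m) N v (fld X wx) (Nat.succ m))
        (Nat.mul (Nat.pow 2 (Nat.pred wx)) (tsm q ty v (fun _ => 1) (Nat.succ m))))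
      (Nat.add (tsm q ty v (fld X wx) (Nat.succ m))
        (Nat.mul (Nat.pow 2 (Nat.pred wx)) (asum (Nat.succ m) N v (fun _ => 1) (Nat.succ m)))))
    (Nat.succ m))
  (Bool.and (Nat.beq (sumB (fun u => Nat.mul (bn ty u) (fld X wx u)) (Nat.succ m))
      (Nat.mul (Nat.pow 2 (Nat.pred wx)) (sumB (fun u => bn ty u) (Nat.succ m))))
    (Nat.beq (sumB (fun u => Nat.mul (Nat.sub 1 (bn ty u)) (fld X wx u)) (Nat.succ m))
      (Nat.mul (Nat.pow 2 (Nat.pred wx)) (sumB (fun u => Nat.sub 1 (bn ty u)) (Nat.succ m))))))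

/-- the inverse modulo `p` of the matrix without its last row and column -/
noncomputable def chkInv (q : Bool) (m N ty L w p K : ℕ) : Bool :=
  Bool.and (Nat.ble 2 p)
  (Bool.and (Nat.ble (Nat.succ (Nat.mul (Nat.pred p) m)) (Nat.mul K p))
  (Bool.and (Nat.ble (Nat.succ (Nat.add (Nat.mul (Nat.pred p) m) (Nat.mul K p))) (Nat.pow 2 w))
  (Bool.and (allB (fun u => allB (fun j => Nat.ble (Nat.succ (fld (rr L w m u) w j)) p) m) m)
    (allB (fun v => allB (fun j => Nat.beq (Nat.mod (fld (dd q m N ty L w p K v) w j) p) 0) m)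
      m))))

/-- the whole checker for `IsPiece` -/
noncomputable def chkPiece (q : Bool) (m N ty X wx L w p K : ℕ) (c0 c1 : ℤ) : Bool :=
  Bool.and (chkAdj m N) (Bool.and (chkDeg q m N ty c0 c1)
    (Bool.and (chkX q m N ty X wx) (chkInv q m N ty L w p K)))

theorem pack_lt (b : ℕ) (hb : 0 < b) (m : ℕ) (f : ℕ → ℕ) (hf : ∀ j < m, f j < b) :
    ∑ j ∈ Finset.range m, f j * b ^ j < b ^ m := by
  induction m with
  | zero => simp
  | succ m ih =>
    rw [Finset.sum_range_succ]
    have h1 := ih fun j hj => hf j (by omega)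
    have h2 : f m * b ^ m ≤ (b - 1) * b ^ m :=
      Nat.mul_le_mul_right _ (by have := hf m (by omega); omega)
    have h3 : (b - 1) * b ^ m + b ^ m = b ^ (m + 1) := by
      rw [pow_succ, mul_comm (b ^ m) b]
      conv_lhs => rw [← Nat.succ_mul]
      congr 1
      omega
    omega

theorem rr_eq (L w m u : ℕ) :
    rr L w m u = ∑ j ∈ Finset.range m, fld (rr L w m u) w j * (2 ^ w) ^ j := by
  have h : rr L w m u < (2 ^ w) ^ m := by
    unfold rr
    rw [fld_eq]
    have : (2 ^ w) ^ m = 2 ^ (Nat.mul w m) := by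
      change _ = 2 ^ (w * m)
      rw [pow_mul]
    rw [this]
    exact Nat.mod_lt _ (by positivity)
  conv_lhs => rw [← Nat.mod_eq_of_lt h, ← pack_digits]
  refine Finset.sum_congr rfl fun j _ => ?_
  rw [fld_eq (rr L w m u) w j]

/-- entry of the corrected matrix -/
def cz (q : Bool) (m N ty v u : ℕ) : ℤ := (an (m + 1) N v u : ℤ) - (tn q ty v u : ℤ)

theorem asum_eq (n N v : ℕ) (f : ℕ → ℕ) (l : ℕ) :
    asum n N v f l = ∑ u ∈ Finset.range l, an n N v u * f u := by
  unfold asum
  rw [sumB_eq]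
  rfl

theorem tsm_eq (q : Bool) (ty v : ℕ) (f : ℕ → ℕ) (l : ℕ) :
    tsm q ty v f l = ∑ u ∈ Finset.range l, tn q ty v u * f u := by
  unfold tsm
  rw [sumB_eq]
  rfl

theorem tn_le (q : Bool) (ty u v : ℕ) : tn q ty u v ≤ 1 := by
  unfold tn
  cases q with
  | false => exact Nat.zero_le _
  | true => exact Nat.le_of_lt_succ (Nat.mod_lt _ (by norm_num))

theorem an_le (n N u v : ℕ) : an n N u v ≤ 1 := Nat.le_of_lt_succ (bn_lt _ _)

theorem chkInv_det {q : Bool} {m N ty L w p K : ℕ} (h : chkInv q m N ty L w p K = true) :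
    (Matrix.of (fun v u : Fin m => cz q m N ty v u)).det ≠ 0 := by
  unfold chkInv at h
  simp only [Bool.and_eq_true] at h
  obtain ⟨h1, h2, h3, h4, h5⟩ := h
  have hp : 2 ≤ p := Nat.le_of_ble_eq_true h1
  have hK : (p - 1) * m + 1 ≤ K * p := Nat.le_of_ble_eq_true h2
  have hw : (p - 1) * m + K * p < 2 ^ w := Nat.le_of_ble_eq_true h3
  have hR : ∀ u < m, ∀ j < m, fld (rr L w m u) w j < p := by
    intro u hu j hj
    exact Nat.le_of_ble_eq_true ((allB_iff _ _).1 ((allB_iff _ _).1 h4 u hu) j hj)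
  have hD : ∀ v < m, ∀ j < m, fld (dd q m N ty L w p K v) w j % p = 0 := by
    intro u hu j hj
    exact Nat.eq_of_beq_eq_true ((allB_iff _ _).1 ((allB_iff _ _).1 h5 u hu) j hj)
  have hb : 0 < 2 ^ w := by positivity
  have hb2 : 2 ≤ 2 ^ w := by
    have : 1 ≤ (p - 1) * m + K * p := by omega
    omega
  set b := 2 ^ w with hbdef
  -- sums of fields
  have sumle : ∀ (g : ℕ → ℕ), (∀ u, g u ≤ 1) → ∀ j < m,
      ∑ u ∈ Finset.range m, g u * fld (rr L w m u) w j ≤ (p - 1) * m := by
    intro g hg j hj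
    calc ∑ u ∈ Finset.range m, g u * fld (rr L w m u) w j
        ≤ ∑ u ∈ Finset.range m, (p - 1) := by
          refine Finset.sum_le_sum fun u hu => ?_
          have h1 := hR u (Finset.mem_range.1 hu) j hj
          have h2 := hg u
          calc g u * fld (rr L w m u) w j ≤ 1 * fld (rr L w m u) w j :=
                Nat.mul_le_mul_right _ h2
            _ ≤ p - 1 := by omega
      _ = (p - 1) * m := by rw [Finset.sum_const, Finset.card_range, smul_eq_mul, mul_comm]
  have lin : ∀ g : ℕ → ℕ, ∑ u ∈ Finset.range m, g u * rr L w m u =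
      ∑ j ∈ Finset.range m, (∑ u ∈ Finset.range m, g u * fld (rr L w m u) w j) * b ^ j := by
    intro g
    simp_rw [Finset.sum_mul]
    rw [Finset.sum_comm]
    refine Finset.sum_congr rfl fun u _ => ?_
    conv_lhs => rw [rr_eq L w m u, Finset.mul_sum]
    refine Finset.sum_congr rfl fun j _ => ?_
    rw [mul_assoc]
  have key : ∀ v < m, ∀ j < m, fld (dd q m N ty L w p K v) w j =
      (∑ u ∈ Finset.range m, an (m + 1) N v u * fld (rr L w m u) w j) + K * p -
      (∑ u ∈ Finset.range m, tn q ty v u * fld (rr L w m u) w j) - (if j = v then 1 else 0) := by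
    intro v hv
    set Aj : ℕ → ℕ := fun j => ∑ u ∈ Finset.range m, an (m + 1) N v u * fld (rr L w m u) w j
      with hAj
    set Tj : ℕ → ℕ := fun j => ∑ u ∈ Finset.range m, tn q ty v u * fld (rr L w m u) w j with hTj
    have hAle : ∀ j < m, Aj j ≤ (p - 1) * m := sumle _ (fun u => an_le _ _ _ _)
    have hTle : ∀ j < m, Tj j ≤ (p - 1) * m := sumle _ (fun u => tn_le _ _ _ _)
    set Dj : ℕ → ℕ := fun j => Aj j + K * p - Tj j - (if j = v then 1 else 0) with hDj
    have hDlt : ∀ j < m, Dj j < b := by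
      intro j hj
      have := hAle j hj
      simp only [hDj]
      omega
    have hsum : dd q m N ty L w p K v = ∑ j ∈ Finset.range m, Dj j * b ^ j := by
      have e1 : asum (Nat.succ m) N v (rr L w m) m = ∑ j ∈ Finset.range m, Aj j * b ^ j := by
        rw [asum_eq]; exact lin _
      have e2 : tsm q ty v (rr L w m) m = ∑ j ∈ Finset.range m, Tj j * b ^ j := by
        rw [tsm_eq]; exact lin _
      have e3 : Nat.div (Nat.sub (Nat.pow (Nat.pow 2 w) m) 1) (Nat.sub (Nat.pow 2 w) 1) =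
          ∑ j ∈ Finset.range m, b ^ j := (Nat.geomSum_eq hb2 m).symm
      have e4 : (b : ℕ) ^ v = ∑ j ∈ Finset.range m, (if j = v then 1 else 0) * b ^ j := by
        simp_rw [ite_mul, one_mul, zero_mul]
        rw [Finset.sum_ite_eq', if_pos (Finset.mem_range.2 hv)]
      have e5 : (∑ j ∈ Finset.range m, Dj j * b ^ j) + (∑ j ∈ Finset.range m,
          (if j = v then 1 else 0) * b ^ j) + ∑ j ∈ Finset.range m, Tj j * b ^ j =
          (∑ j ∈ Finset.range m, Aj j * b ^ j) + K * p * ∑ j ∈ Finset.range m, b ^ j := by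
        rw [Finset.mul_sum, ← Finset.sum_add_distrib, ← Finset.sum_add_distrib,
          ← Finset.sum_add_distrib]
        refine Finset.sum_congr rfl fun j hj => ?_
        have h1 := hTle j (Finset.mem_range.1 hj)
        rw [← add_mul, ← add_mul, ← add_mul]
        congr 1
        simp only [hDj]
        split_ifs <;> omega
      unfold dd
      rw [e1, e2, e3]
      change (∑ j ∈ Finset.range m, Aj j * b ^ j) + K * p * (∑ j ∈ Finset.range m, b ^ j) -
        (∑ j ∈ Finset.range m, Tj j * b ^ j) - b ^ v = _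
      rw [e4]
      omega
    have hlt : dd q m N ty L w p K v < b ^ m := by
      rw [hsum]; exact pack_lt b hb m _ hDlt
    have := pack_inj b hb m (fun j => fld (dd q m N ty L w p K v) w j) Dj
      (by
        intro j _
        rw [fld_eq]
        exact Nat.mod_lt _ hb) hDlt (by
        rw [← hsum]
        conv_rhs => rw [← Nat.mod_eq_of_lt hlt, ← pack_digits]
        refine Finset.sum_congr rfl fun j _ => ?_
        simp only [fld_eq]
        rfl)
    exact this
  refine det_ne_zero_of_mod _ (Matrix.of (fun u j : Fin m => (fld (rr L w m u) w j : ℤ))) p hp ?_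
  intro v j
  have h1 := key v v.2 j j.2
  have h2 := hD v v.2 j j.2
  have h3 := sumle (fun u => tn q ty v u) (fun u => tn_le _ _ _ _) j j.2
  rw [h1] at h2
  have h4 := Nat.dvd_of_mod_eq_zero h2
  have h5 : (p : ℤ) ∣ (∑ u ∈ Finset.range m, (an (m + 1) N v u : ℤ) * fld (rr L w m u) w j) +
      K * p - (∑ u ∈ Finset.range m, (tn q ty v u : ℤ) * fld (rr L w m u) w j) -
        (if j = v then 1 else 0) := by
    have h6 := Int.natCast_dvd_natCast.2 h4
    rw [Nat.cast_sub (by split_ifs <;> omega), Nat.cast_sub (by omega)] at h6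
    push_cast at h6
    have h7 : (if (j : ℕ) = (v : ℕ) then (1 : ℤ) else 0) = if j = v then 1 else 0 := by
      simp only [Fin.ext_iff]
    rwa [h7] at h6
  have h8 : (Matrix.of (fun v u : Fin m => cz q m N ty v u) *
      Matrix.of (fun u j : Fin m => (fld (rr L w m u) w j : ℤ))) v j -
      (if v = j then 1 else 0) = ((∑ u ∈ Finset.range m,
        (an (m + 1) N v u : ℤ) * fld (rr L w m u) w j) +
      K * p - (∑ u ∈ Finset.range m, (tn q ty v u : ℤ) * fld (rr L w m u) w j) -
        (if j = v then 1 else 0)) - K * p := by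
    rw [Matrix.mul_apply]
    simp only [Matrix.of_apply, cz, sub_mul, Finset.sum_sub_distrib]
    rw [Finset.sum_range, Finset.sum_range]
    simp only [eq_comm (a := v) (b := j)]
    ring
  rw [h8]
  exact dvd_sub h5 (Dvd.intro_left _ rfl)

/-! ### Soundness for pieces -/

/-- adjacency -/
def adjF (m N : ℕ) (u v : Fin (m + 1)) : Bool := bt N ((m + 1) * u + v)

/-- types -/
def tyF (m ty : ℕ) (u : Fin (m + 1)) : Bool := bt ty u

/-- kernel vector -/
def xF (m X wx : ℕ) (u : Fin (m + 1)) : ℝ := (sfld X wx u : ℝ)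

/-- pattern -/
def QF (q : Bool) (s t : Bool) : Bool := q && (s == t)

theorem cm_eq (q : Bool) (m N ty : ℕ) (v u : Fin (m + 1)) :
    cm (QF q) (adjF m N) (tyF m ty) v u = (cz q m N ty v u : ℝ) := by
  unfold cm cz QF adjF tyF
  rw [bit_bt, bit_tn]
  push_cast
  rfl

theorem sum_an_cast (m N v : ℕ) (f : ℕ → ℕ) : ((asum (m + 1) N v f (m + 1) : ℕ) : ℤ) =
    ∑ u : Fin (m + 1), (an (m + 1) N v u : ℤ) * (f u : ℤ) := by
  rw [asum_eq, Finset.sum_range]; push_cast; rfl

theorem sum_tn_cast (q : Bool) (m ty v : ℕ) (f : ℕ → ℕ) : ((tsm q ty v f (m + 1) : ℕ) : ℤ) =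
    ∑ u : Fin (m + 1), (tn q ty v u : ℤ) * (f u : ℤ) := by
  rw [tsm_eq, Finset.sum_range]; push_cast; rfl

theorem cz_sum (q : Bool) (m N ty v : ℕ) (f : ℕ → ℤ) :
    ∑ u : Fin (m + 1), cz q m N ty v u * f u =
      ∑ u : Fin (m + 1), (an (m + 1) N v u : ℤ) * f u -
        ∑ u : Fin (m + 1), (tn q ty v u : ℤ) * f u := by
  simp only [cz, sub_mul, Finset.sum_sub_distrib]

/-- consequence of a balance check for a vector given by fields with offset -/
theorem cz_fld (q : Bool) (m N ty v X w : ℕ) (off : ℤ)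
    (e : ℤ) (h : ((asum (m + 1) N v (fld X w) (m + 1) : ℕ) : ℤ) +
      off * (tsm q ty v (fun _ => 1) (m + 1) : ℕ) =
      (tsm q ty v (fld X w) (m + 1) : ℕ) + off * (asum (m + 1) N v (fun _ => 1) (m + 1) : ℕ) + e) :
    ∑ u : Fin (m + 1), cz q m N ty v u * ((fld X w u : ℤ) - off) = e := by
  rw [cz_sum q m N ty v (fun u => (fld X w u : ℤ) - off)]
  rw [sum_an_cast, sum_an_cast, sum_tn_cast, sum_tn_cast] at h
  simp only [mul_sub, Finset.sum_sub_distrib, ← Finset.sum_mul]
  simp only [Nat.cast_one, mul_one] at h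
  linarith

theorem piece_of_check {q : Bool} {m N ty X wx L w p K : ℕ} {c0 c1 : ℤ}
    (h : chkPiece q m N ty X wx L w p K c0 c1 = true) :
    IsPiece (V := Fin (m + 1)) (QF q) (fun t => ((Bool.rec c0 c1 t : ℤ) : ℝ)) (adjF m N)
      (tyF m ty) (xF m X wx) := by
  unfold chkPiece at h
  simp only [Bool.and_eq_true] at h
  obtain ⟨h1, h2, h3, h4⟩ := h
  unfold chkAdj at h1
  simp only [Bool.and_eq_true] at h1
  obtain ⟨h1a, h1b⟩ := h1
  have hsymm' : ∀ u v : Fin (m + 1), v < u → an (m + 1) N u v = an (m + 1) N v u := by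
    intro u v huv
    exact Nat.eq_of_beq_eq_true ((allB_iff _ _).1 ((allB_iff _ _).1 h1a u u.2) v huv)
  have hsymm : ∀ u v : Fin (m + 1), an (m + 1) N u v = an (m + 1) N v u := by
    intro u v
    rcases lt_trichotomy u v with h | h | h
    · exact (hsymm' v u h).symm
    · rw [h]
    · exact hsymm' u v h
  have htnsymm : ∀ u v : ℕ, tn q ty u v = tn q ty v u := by
    intro u v
    unfold tn
    cases q with
    | false => rfl
    | true =>
      change (bn ty u + bn ty v + 1) % 2 = (bn ty v + bn ty u + 1) % 2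
      rw [add_comm (bn ty u)]
  have hczsymm : ∀ u v : Fin (m + 1), cz q m N ty u v = cz q m N ty v u := by
    intro u v
    unfold cz
    rw [hsymm u v, htnsymm]
  unfold chkX at h3
  simp only [Bool.and_eq_true] at h3
  obtain ⟨h3a, h3b, h3c, h3d⟩ := h3
  have hker : ∀ v : Fin (m + 1), ∑ u : Fin (m + 1), cz q m N ty v u * sfld X wx u = 0 := by
    intro v
    have h5 := Nat.eq_of_beq_eq_true ((allB_iff _ _).1 h3b v v.2)
    have h6 := cz_fld q m N ty v X wx ((2 ^ (wx - 1) : ℕ) : ℤ) 0 (by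
      rw [add_zero]
      exact_mod_cast h5)
    exact h6
  have hne : ∀ v : Fin (m + 1), sfld X wx v ≠ 0 := by
    intro v hv
    have h5 := (allB_iff _ _).1 h3a v v.2
    simp only [Bool.not_eq_true'] at h5
    have h6 : fld X wx v = 2 ^ (wx - 1) := by
      unfold sfld at hv
      have : (fld X wx v : ℤ) = ((2 ^ (wx - 1) : ℕ) : ℤ) := by linarith
      exact_mod_cast this
    have h7 : Nat.beq (fld X wx v) (Nat.pow 2 (Nat.pred wx)) = true := by
      rw [Nat.beq_eq]; exact h6
    rw [h7] at h5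
    exact Bool.noConfusion h5
  refine ⟨?_, ?_, ?_, ?_, ?_, ?_, ?_⟩
  · intro u v
    have := hsymm u v
    unfold an at this
    unfold adjF bt
    exact congrArg (fun t => Nat.beq t 1) this
  · intro v
    have h5 := Nat.eq_of_beq_eq_true ((allB_iff _ _).1 h1b v v.2)
    unfold an at h5
    unfold adjF bt
    have : bn N ((m + 1) * v + v) = 0 := h5
    rw [this]
    rfl
  · intro v
    have h5 := (allB_iff _ _).1 h2 v v.2
    have h5' := of_decide_eq_true h5
    rw [sum_an_cast, sum_tn_cast] at h5'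
    simp only [cm_eq]
    have h6 : ∑ u : Fin (m + 1), cz q m N ty v u = (Bool.rec c0 c1 (bt ty v) : ℤ) := by
      have := cz_sum q m N ty v (fun _ => 1)
      simp only [mul_one] at this
      rw [this]
      simp only [Nat.cast_one, mul_one] at h5'
      linarith
    have h7 := congrArg (fun z : ℤ => (z : ℝ)) h6
    simp only [Int.cast_sum] at h7
    exact h7
  · intro v
    unfold xF
    exact_mod_cast hne v
  · intro v
    simp only [cm_eq, xF]
    exact_mod_cast hker v
  · intro t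
    have g1 : ∑ u : Fin (m + 1), (bn ty u : ℤ) * sfld X wx u = 0 := by
      have h5 := Nat.eq_of_beq_eq_true h3c
      rw [sumB_fin, sumB_fin] at h5
      have h6 : (∑ u : Fin (m + 1), (bn ty u : ℤ) * (fld X wx u : ℤ)) =
        ((2 ^ (wx - 1) : ℕ) : ℤ) * ∑ u : Fin (m + 1), (bn ty u : ℤ) := by
        have := congrArg (fun z : ℕ => (z : ℤ)) h5
        simp only [Nat.cast_sum] at this
        rw [show (∑ u : Fin (m + 1), (bn ty u : ℤ) * (fld X wx u : ℤ)) =
          ∑ x : Fin (m + 1), ((((bn ty ↑x).mul (fld X wx ↑x) : ℕ)) : ℤ) from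
            Finset.sum_congr rfl fun u _ => (Nat.cast_mul _ _).symm, this]
        rw [show ((Nat.pow 2 (Nat.pred wx)).mul (∑ i : Fin (m + 1), bn ty i) : ℕ) =
          2 ^ (wx - 1) * (∑ i : Fin (m + 1), bn ty i) from rfl]
        push_cast
        rfl
      unfold sfld
      simp only [mul_sub, Finset.sum_sub_distrib, ← Finset.sum_mul]
      rw [h6]; ring
    have g2 : ∑ u : Fin (m + 1), ((1 - bn ty u : ℕ) : ℤ) * sfld X wx u = 0 := by
      have h5 := Nat.eq_of_beq_eq_true h3d
      rw [sumB_fin, sumB_fin] at h5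
      have h6 : (∑ u : Fin (m + 1), ((1 - bn ty u : ℕ) : ℤ) * (fld X wx u : ℤ)) =
        ((2 ^ (wx - 1) : ℕ) : ℤ) * ∑ u : Fin (m + 1), ((1 - bn ty u : ℕ) : ℤ) := by
        have := congrArg (fun z : ℕ => (z : ℤ)) h5
        simp only [Nat.cast_sum] at this
        rw [show (∑ u : Fin (m + 1), ((1 - bn ty u : ℕ) : ℤ) * (fld X wx u : ℤ)) =
          ∑ x : Fin (m + 1), (((((1 : ℕ).sub (bn ty ↑x)).mul (fld X wx ↑x) : ℕ)) : ℤ) from
            Finset.sum_congr rfl fun u _ => (Nat.cast_mul _ _).symm, this]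
        rw [show ((Nat.pow 2 (Nat.pred wx)).mul (∑ i : Fin (m + 1), (1 : ℕ).sub (bn ty i)) : ℕ) =
          2 ^ (wx - 1) * (∑ i : Fin (m + 1), (1 - bn ty i)) from rfl]
        push_cast
        rfl
      unfold sfld
      simp only [mul_sub, Finset.sum_sub_distrib, ← Finset.sum_mul]
      rw [h6]; ring
    have e : ∀ u : Fin (m + 1), (if tyF m ty u = t then xF m X wx u else 0) =
        (((Bool.rec ((1 - bn ty u : ℕ) : ℤ) (bn ty u : ℤ) t : ℤ) * sfld X wx u : ℤ) : ℝ) := by
      intro u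
      have hb := bn_lt ty u
      unfold tyF bt xF
      cases t <;> interval_cases h : bn ty u <;> simp
    simp only [e]
    rw [← Int.cast_sum]
    cases t with
    | false => rw [g2]; simp
    | true => rw [g1]; simp
  · intro z hz
    simp only [cm_eq] at hz
    have hdet := chkInv_det h4
    set last : Fin (m + 1) := Fin.last m with hlast
    have hxl : (sfld X wx last : ℝ) ≠ 0 := by exact_mod_cast hne last
    refine ⟨z last / sfld X wx last, ?_⟩
    set l := z last / (sfld X wx last : ℝ) with hl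
    have hy : ∀ v : Fin (m + 1), ∑ u : Fin (m + 1), (cz q m N ty v u : ℝ) *
        (z u - l * sfld X wx u) = 0 := by
      intro v
      have h5 : (∑ u : Fin (m + 1), (cz q m N ty v u : ℝ) * (sfld X wx u : ℝ)) = 0 := by
        exact_mod_cast hker v
      calc ∑ u : Fin (m + 1), (cz q m N ty v u : ℝ) * (z u - l * sfld X wx u)
          = ∑ u : Fin (m + 1), (cz q m N ty v u : ℝ) * z u -
            l * ∑ u : Fin (m + 1), (cz q m N ty v u : ℝ) * (sfld X wx u : ℝ) := by
              rw [Finset.mul_sum, ← Finset.sum_sub_distrib]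
              exact Finset.sum_congr rfl fun u _ => by ring
        _ = 0 := by rw [hz v, h5]; ring
    have hyl : z last - l * sfld X wx last = 0 := by
      rw [hl]; field_simp; ring
    have hB : (Matrix.of (fun v u : Fin m => (cz q m N ty v u : ℝ))).mulVec
        (fun u : Fin m => z u.castSucc - l * sfld X wx u) = 0 := by
      ext v
      have := hy v.castSucc
      rw [Fin.sum_univ_castSucc, ← hlast, hyl, mul_zero, add_zero] at this
      simpa [Matrix.mulVec, dotProduct] using this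
    have hdet' : (Matrix.of (fun v u : Fin m => (cz q m N ty v u : ℝ))).det ≠ 0 := by
      have e : (Matrix.of (fun v u : Fin m => (cz q m N ty v u : ℝ))) =
        (Matrix.of (fun v u : Fin m => cz q m N ty v u)).map (Int.castRingHom ℝ) := by
        ext v u; simp
      rw [e, ← RingHom.mapMatrix_apply, ← RingHom.map_det]
      simpa using hdet
    have h0 := Matrix.eq_zero_of_mulVec_eq_zero hdet' hB
    intro v
    refine Fin.lastCases ?_ (fun u => ?_) v
    · unfold xF; linarith
    · have := congrFun h0 u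
      simp only [Pi.zero_apply] at this
      unfold xF
      simp only [Fin.val_castSucc]
      linarith

/-! ### Gadgets -/

/-- gadget data `(a, b, p, q)` -/
abbrev G4 := ℕ × ℕ × ℕ × ℕ

/-- the vertex with number `a` -/
def vx (m a : ℕ) : Fin (m + 1) := ⟨a % (m + 1), Nat.mod_lt _ (Nat.succ_pos m)⟩

/-- the gadget with data `g` -/
def gadF (m : ℕ) (g : G4) : Gad (Fin (m + 1)) :=
  ⟨vx m g.1, vx m g.2.1, vx m g.2.2.1, vx m g.2.2.2⟩

/-- check one gadget -/
noncomputable def chkGad (m N ty : ℕ) (a b p q : ℕ) (e : Bool) : Bool :=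
  Bool.and (Nat.ble a m) (Bool.and (Nat.ble b m) (Bool.and (Nat.ble p m) (Bool.and (Nat.ble q m)
  (Bool.and (Nat.beq (bn ty a) 0) (Bool.and (Nat.beq (bn ty b) 0)
  (Bool.and (Nat.beq (bn ty p) (bn ty q))
  (Bool.and (Nat.beq (an (Nat.succ m) N p a) 1) (Bool.and (Nat.beq (an (Nat.succ m) N q a) 0)
  (Bool.and (Nat.beq (an (Nat.succ m) N p b) 0) (Bool.and (Nat.beq (an (Nat.succ m) N q b) 1)
  (Bool.and (Nat.beq (an (Nat.succ m) N a b) (Bool.rec 0 1 e))
  (allB (fun v => Bool.or (Nat.beq v a) (Bool.or (Nat.beq v b)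
    (Nat.beq (an (Nat.succ m) N p v) (an (Nat.succ m) N q v)))) (Nat.succ m)))))))))))))

/-- separation of two gadgets -/
def chkSep (a b p q : ℕ) : Bool :=
  Bool.and (Bool.not (Nat.beq a p)) (Bool.and (Bool.not (Nat.beq a q))
    (Bool.and (Bool.not (Nat.beq b p)) (Bool.not (Nat.beq b q))))

/-- distinct switching pairs -/
def chkDis (a b a' b' : ℕ) : Bool :=
  Bool.and (Bool.not (Bool.and (Nat.beq a a') (Nat.beq b b')))
    (Bool.not (Bool.and (Nat.beq a b') (Nat.beq b a')))

/-- check of a system of gadgets -/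
noncomputable def chkSys (m N ty k : ℕ) (g : Fin k → G4) (e : Fin k → Bool) : Bool :=
  Bool.and (decide (∀ i : Fin k, chkGad m N ty (g i).1 (g i).2.1 (g i).2.2.1 (g i).2.2.2 (e i) =
    true))
  (Bool.and (decide (∀ i j : Fin k, chkSep (g i).1 (g i).2.1 (g j).2.2.1 (g j).2.2.2 = true))
    (decide (∀ i j : Fin k, i ≠ j → chkDis (g i).1 (g i).2.1 (g j).1 (g j).2.1 = true)))

theorem vx_val {m a : ℕ} (h : a ≤ m) : ((vx m a : Fin (m + 1)) : ℕ) = a :=
  Nat.mod_eq_of_lt (by omega)

theorem ne_of_not_beq {a b : ℕ} (h : Bool.not (Nat.beq a b) = true) : a ≠ b := by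
  intro h2
  rw [h2, Nat.beq_refl] at h
  exact Bool.noConfusion h

theorem sys_of_check {m N ty k : ℕ} {g : Fin k → G4} {e : Fin k → Bool}
    (h : chkSys m N ty k g e = true) :
    GadSys (V := Fin (m + 1)) (adjF m N) (tyF m ty) (fun i => gadF m (g i)) e := by
  unfold chkSys at h
  simp only [Bool.and_eq_true, decide_eq_true_eq] at h
  obtain ⟨h1, h2, h3⟩ := h
  have hle : ∀ i, (g i).1 ≤ m ∧ (g i).2.1 ≤ m ∧ (g i).2.2.1 ≤ m ∧ (g i).2.2.2 ≤ m := by
    intro i
    have := h1 i
    unfold chkGad at this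
    simp only [Bool.and_eq_true] at this
    obtain ⟨a1, a2, a3, a4, -⟩ := this
    exact ⟨Nat.le_of_ble_eq_true a1, Nat.le_of_ble_eq_true a2, Nat.le_of_ble_eq_true a3,
      Nat.le_of_ble_eq_true a4⟩
  have vne : ∀ {a b : ℕ}, a ≤ m → b ≤ m → a ≠ b → vx m a ≠ vx m b := by
    intro a b ha hb hab h
    have := congrArg Fin.val h
    rw [vx_val ha, vx_val hb] at this
    exact hab this
  have hadj : ∀ {a b : ℕ}, a ≤ m → b ≤ m → ∀ t : Bool, an (m + 1) N a b = (Bool.rec 0 1 t : ℕ) →
      adjF m N (vx m a) (vx m b) = t := by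
    intro a b ha hb t ht
    unfold adjF bt
    rw [vx_val ha, vx_val hb]
    have : bn N ((m + 1) * a + b) = (Bool.rec 0 1 t : ℕ) := ht
    rw [this]
    cases t <;> rfl
  refine ⟨?_, ?_, ?_, ?_⟩
  · intro i
    obtain ⟨ha, hb, hp, hq⟩ := hle i
    have := h1 i
    unfold chkGad at this
    simp only [Bool.and_eq_true] at this
    obtain ⟨-, -, -, -, a5, a6, a7, a8, a9, a10, a11, a12, a13⟩ := this
    have ety : ∀ {a : ℕ}, a ≤ m → tyF m ty (vx m a) = bt ty a := by
      intro a ha
      unfold tyF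
      rw [vx_val ha]
    refine ⟨?_, ?_, ?_, ?_, ?_, ?_, ?_, ?_⟩
    · change tyF m ty (vx m _) = false
      rw [ety ha]
      unfold bt
      rw [Nat.eq_of_beq_eq_true a5]; rfl
    · change tyF m ty (vx m _) = false
      rw [ety hb]
      unfold bt
      rw [Nat.eq_of_beq_eq_true a6]; rfl
    · change tyF m ty (vx m _) = tyF m ty (vx m _)
      rw [ety hp, ety hq]
      unfold bt
      rw [Nat.eq_of_beq_eq_true a7]
    · exact hadj hp ha true (Nat.eq_of_beq_eq_true a8)
    · exact hadj hq ha false (Nat.eq_of_beq_eq_true a9)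
    · exact hadj hp hb false (Nat.eq_of_beq_eq_true a10)
    · exact hadj hq hb true (Nat.eq_of_beq_eq_true a11)
    · intro v hva hvb
      have h5 := (allB_iff _ _).1 a13 v v.2
      simp only [Bool.or_eq_true] at h5
      have hva' : (v : ℕ) ≠ (g i).1 := by
        intro h; apply hva
        apply Fin.ext
        change (v : ℕ) = (vx m _ : Fin (m + 1))
        rw [vx_val ha]; exact h
      have hvb' : (v : ℕ) ≠ (g i).2.1 := by
        intro h; apply hvb
        apply Fin.ext
        change (v : ℕ) = (vx m _ : Fin (m + 1))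
        rw [vx_val hb]; exact h
      rcases h5 with h5 | h5 | h5
      · exact absurd (Nat.eq_of_beq_eq_true h5) hva'
      · exact absurd (Nat.eq_of_beq_eq_true h5) hvb'
      · have h6 := Nat.eq_of_beq_eq_true h5
        change adjF m N (vx m _) v = adjF m N (vx m _) v
        unfold adjF bt
        rw [vx_val hp, vx_val hq]
        exact congrArg (fun t => Nat.beq t 1) h6
  · intro i j
    have := h2 i j
    unfold chkSep at this
    simp only [Bool.and_eq_true] at this
    obtain ⟨b1, b2, b3, b4⟩ := this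
    exact ⟨vne (hle i).1 (hle j).2.2.1 (ne_of_not_beq b1),
      vne (hle i).1 (hle j).2.2.2 (ne_of_not_beq b2),
      vne (hle i).2.1 (hle j).2.2.1 (ne_of_not_beq b3),
      vne (hle i).2.1 (hle j).2.2.2 (ne_of_not_beq b4)⟩
  · intro i
    obtain ⟨ha, hb, hp, hq⟩ := hle i
    have := h1 i
    unfold chkGad at this
    simp only [Bool.and_eq_true] at this
    obtain ⟨-, -, -, -, a5, a6, a7, a8, a9, a10, a11, a12, a13⟩ := this
    exact hadj ha hb (e i) (Nat.eq_of_beq_eq_true a12)
  · intro i j hij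
    have := h3 i j hij
    unfold chkDis at this
    simp only [Bool.and_eq_true] at this
    obtain ⟨b1, b2⟩ := this
    constructor
    · rintro ⟨c1, c2⟩
      have c1' := congrArg Fin.val c1
      have c2' := congrArg Fin.val c2
      change ((vx m _ : Fin (m + 1)) : ℕ) = (vx m _ : Fin (m + 1)) at c1' c2'
      rw [vx_val (hle i).1, vx_val (hle j).1] at c1'
      rw [vx_val (hle i).2.1, vx_val (hle j).2.1] at c2'
      rw [c1', c2', Nat.beq_refl, Nat.beq_refl] at b1
      exact Bool.noConfusion b1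
    · rintro ⟨c1, c2⟩
      have c1' := congrArg Fin.val c1
      have c2' := congrArg Fin.val c2
      change ((vx m _ : Fin (m + 1)) : ℕ) = (vx m _ : Fin (m + 1)) at c1' c2'
      rw [vx_val (hle i).1, vx_val (hle j).2.1] at c1'
      rw [vx_val (hle i).2.1, vx_val (hle j).1] at c2'
      rw [c1', c2', Nat.beq_refl, Nat.beq_refl] at b2
      exact Bool.noConfusion b2

/-! ### Strong -/

/-- the checker for `Strong r n`: `N` packed adjacency matrix (stride `n`), `X` packed kernel
vector (width `wx`, offset `2 ^ (wx - 1)`), `L` packed inverse modulo `p` -/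
noncomputable def chkStrong (r n N X wx L w p K : ℕ) (g : Fin 4 → G4) : Bool :=
  Bool.and (Nat.ble 1 n) (Bool.and (chkPiece false (Nat.pred n) N 0 X wx L w p K (r : ℤ) (r : ℤ))
    (chkSys (Nat.pred n) N 0 4 g ![true, true, false, false]))

theorem bt_zero (i : ℕ) : bt 0 i = false := by
  unfold bt bn
  change Nat.beq ((0 >>> i) % 2) 1 = false
  rw [Nat.zero_shiftRight]
  rfl

theorem strong_of_check {r n : ℕ} (N X wx L w p K : ℕ) (g : Fin 4 → G4)
    (h : chkStrong r n N X wx L w p K g = true) : Strong r n := by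
  unfold chkStrong at h
  simp only [Bool.and_eq_true] at h
  obtain ⟨h1, h2, h3⟩ := h
  have hn : 1 ≤ n := Nat.le_of_ble_eq_true h1
  obtain ⟨m, rfl⟩ : ∃ m, n = m + 1 := ⟨n - 1, by omega⟩
  rw [Nat.pred_succ] at h2 h3
  have hty : tyF m 0 = fun _ => false := by
    funext u; exact bt_zero _
  have p1 := piece_of_check h2
  have p2 := sys_of_check h3
  rw [hty] at p1 p2
  refine ⟨Fin (m + 1), inferInstance, inferInstance, adjF m N, xF m X wx, fun i => gadF m (g i),
    Fintype.card_fin _, ?_, p2⟩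
  have e1 : QF false = fun _ _ => false := by funext s t; rfl
  have e2 : (fun t => (((Bool.rec (r : ℤ) (r : ℤ) t : ℤ)) : ℝ)) = fun _ => (r : ℝ) := by
    funext t; cases t <;> simp
  rw [e1, e2] at p1
  exact p1

/-! ### DPiece -/

/-- checker for the solution `Y` of `C Y = D sgn` and its sums -/
noncomputable def chkY (m N ty Y wy D : ℕ) (s1 sd : ℚ) : Bool :=
  Bool.and (Nat.ble 1 D)
  (Bool.and (allB (fun v => Nat.beq
      (Nat.add (Nat.add (asum (Nat.succ m) N v (fld Y wy) (Nat.succ m))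
        (Nat.mul (Nat.pow 2 (Nat.pred wy)) (tsm true ty v (fun _ => 1) (Nat.succ m))))
        (Nat.mul D (bn ty v)))
      (Nat.add (Nat.add (tsm true ty v (fld Y wy) (Nat.succ m))
        (Nat.mul (Nat.pow 2 (Nat.pred wy)) (asum (Nat.succ m) N v (fun _ => 1) (Nat.succ m))))
        (Nat.mul D (Nat.sub 1 (bn ty v)))))
    (Nat.succ m))
  (Bool.and (decide (s1.num * (D : ℤ) = ((s1.den : ℕ) : ℤ) *
      (((sumB (fld Y wy) (Nat.succ m) : ℕ) : ℤ) -
        ((Nat.mul (Nat.succ m) (Nat.pow 2 (Nat.pred wy)) : ℕ) : ℤ))))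
    (decide (sd.num * (D : ℤ) = ((sd.den : ℕ) : ℤ) *
      ((((sumB (fun u => Nat.mul (Nat.sub 1 (bn ty u)) (fld Y wy u)) (Nat.succ m) : ℕ) : ℤ) -
        ((Nat.mul (sumB (fun u => Nat.sub 1 (bn ty u)) (Nat.succ m))
          (Nat.pow 2 (Nat.pred wy)) : ℕ) : ℤ)) -
        (((sumB (fun u => Nat.mul (bn ty u) (fld Y wy u)) (Nat.succ m) : ℕ) : ℤ) -
        ((Nat.mul (sumB (fun u => bn ty u) (Nat.succ m))
          (Nat.pow 2 (Nat.pred wy)) : ℕ) : ℤ)))))))

/-- the checker for `DPiece` -/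
noncomputable def chkD (c0 c1 : ℤ) (h0 h1 N X wx L w p K Y wy D k : ℕ) (s1 sd : ℚ)
    (g : Fin k → G4) (e : Fin k → Bool) : Bool :=
  Bool.and (Nat.ble 1 (Nat.add h0 h1))
  (Bool.and (chkPiece true (Nat.pred (Nat.add h0 h1)) N
      (Nat.mul (Nat.sub (Nat.pow 2 h1) 1) (Nat.pow 2 h0)) X wx L w p K c0 c1)
  (Bool.and (chkSys (Nat.pred (Nat.add h0 h1)) N
      (Nat.mul (Nat.sub (Nat.pow 2 h1) 1) (Nat.pow 2 h0)) k g e)
    (chkY (Nat.pred (Nat.add h0 h1)) N
      (Nat.mul (Nat.sub (Nat.pow 2 h1) 1) (Nat.pow 2 h0)) Y wy D s1 sd)))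

theorem bt_types (h0 h1 u : ℕ) (hu : u < h0 + h1) :
    bt (Nat.mul (Nat.sub (Nat.pow 2 h1) 1) (Nat.pow 2 h0)) u = decide (h0 ≤ u) := by
  have e : bt (Nat.mul (Nat.sub (Nat.pow 2 h1) 1) (Nat.pow 2 h0)) u =
      Nat.testBit ((2 ^ h1 - 1) * 2 ^ h0) u := by
    unfold bt bn
    change Nat.beq ((((2 ^ h1 - 1) * 2 ^ h0) >>> u) % 2) 1 = _
    rw [Nat.testBit_eq_decide_div_mod_eq, Nat.shiftRight_eq_div_pow]
    rcases Nat.mod_two_eq_zero_or_one (((2 ^ h1 - 1) * 2 ^ h0) / 2 ^ u) with h | h <;> rw [h] <;>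
      rfl
  rw [e, Nat.testBit_mul_two_pow, Nat.testBit_two_pow_sub_one]
  by_cases h : h0 ≤ u
  · simp [h]; omega
  · simp [h]

theorem sgn_eq (m ty : ℕ) (u : Fin (m + 1)) :
    sgn (tyF m ty u) = (((1 - bn ty u : ℕ) : ℤ) - (bn ty u : ℤ) : ℤ) := by
  have hb := bn_lt ty u
  unfold sgn tyF bt
  interval_cases h : bn ty u <;> simp

theorem chkY_sound {m N ty Y wy D X wx : ℕ} {s1 sd : ℚ} {c : Bool → ℝ}
    (hP : IsPiece (V := Fin (m + 1)) (QF true) c (adjF m N) (tyF m ty) (xF m X wx))
    (h : chkY m N ty Y wy D s1 sd = true) (z : Fin (m + 1) → ℝ) (s : ℝ)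
    (hz : ∀ v, ∑ u, cm (QF true) (adjF m N) (tyF m ty) v u * z u = s * sgn (tyF m ty v)) :
    ∑ v, z v = s * (s1 : ℝ) ∧ ∑ v, sgn (tyF m ty v) * z v = s * (sd : ℝ) := by
  unfold chkY at h
  simp only [Bool.and_eq_true, decide_eq_true_eq] at h
  obtain ⟨hD, hY, hs1, hsd⟩ := h
  have hD0 : 1 ≤ D := Nat.le_of_ble_eq_true hD
  have hDr : (D : ℝ) ≠ 0 := by
    have : (0 : ℝ) < D := by exact_mod_cast hD0
    exact this.ne'
  -- the integer solution
  have hYi : ∀ v : Fin (m + 1), ∑ u : Fin (m + 1), cz true m N ty v u * sfld Y wy u =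
      D * (((1 - bn ty v : ℕ) : ℤ) - (bn ty v : ℤ)) := by
    intro v
    have h5 := Nat.eq_of_beq_eq_true ((allB_iff _ _).1 hY v v.2)
    refine cz_fld true m N ty v Y wy ((2 ^ (wy - 1) : ℕ) : ℤ) _ ?_
    have h6 : asum (m + 1) N v (fld Y wy) (m + 1) +
        2 ^ (wy - 1) * tsm true ty v (fun _ => 1) (m + 1) + D * bn ty v =
        tsm true ty v (fld Y wy) (m + 1) + 2 ^ (wy - 1) * asum (m + 1) N v (fun _ => 1) (m + 1) +
        D * (1 - bn ty v) := h5
    have h7 := congrArg (fun z : ℕ => (z : ℤ)) h6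
    simp only [Nat.cast_add, Nat.cast_mul] at h7
    linarith
  set y : Fin (m + 1) → ℝ := fun u => (sfld Y wy u : ℝ) with hy
  have hYr : ∀ v : Fin (m + 1), ∑ u : Fin (m + 1),
      cm (QF true) (adjF m N) (tyF m ty) v u * y u = D * sgn (tyF m ty v) := by
    intro v
    simp only [cm_eq, hy, sgn_eq]
    exact_mod_cast hYi v
  obtain ⟨l, hl⟩ := hP.simple (fun u => D * z u - s * y u) (by
    intro v
    calc ∑ u, cm (QF true) (adjF m N) (tyF m ty) v u * (D * z u - s * y u)
        = D * (∑ u, cm (QF true) (adjF m N) (tyF m ty) v u * z u) -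
          s * ∑ u, cm (QF true) (adjF m N) (tyF m ty) v u * y u := by
            rw [Finset.mul_sum, Finset.mul_sum, ← Finset.sum_sub_distrib]
            exact Finset.sum_congr rfl fun u _ => by ring
      _ = 0 := by rw [hz v, hYr v]; ring)
  have hx0 := hP.xsum false
  have hx1 := hP.xsum true
  have hxs : ∑ u, xF m X wx u = 0 := by
    have : ∀ u, xF m X wx u = (if tyF m ty u = false then xF m X wx u else 0) +
        (if tyF m ty u = true then xF m X wx u else 0) := by
      intro u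
      cases tyF m ty u <;> simp
    rw [Finset.sum_congr rfl fun u _ => this u, Finset.sum_add_distrib, hx0, hx1, add_zero]
  have hxd : ∑ u, sgn (tyF m ty u) * xF m X wx u = 0 := by
    have : ∀ u, sgn (tyF m ty u) * xF m X wx u =
        (if tyF m ty u = false then xF m X wx u else 0) -
        (if tyF m ty u = true then xF m X wx u else 0) := by
      intro u
      unfold sgn
      cases tyF m ty u <;> simp
    rw [Finset.sum_congr rfl fun u _ => this u, Finset.sum_sub_distrib, hx0, hx1, sub_zero]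
  have t1 : D * ∑ v, z v = s * ∑ v, y v := by
    have : ∑ u, (D * z u - s * y u) = 0 := by
      simp only [hl]
      rw [← Finset.mul_sum, hxs, mul_zero]
    rw [Finset.sum_sub_distrib, ← Finset.mul_sum, ← Finset.mul_sum] at this
    linarith
  have t2 : D * ∑ v, sgn (tyF m ty v) * z v = s * ∑ v, sgn (tyF m ty v) * y v := by
    have : ∑ u, sgn (tyF m ty u) * (D * z u - s * y u) = 0 := by
      have e : ∀ u, sgn (tyF m ty u) * (D * z u - s * y u) =
          l * (sgn (tyF m ty u) * xF m X wx u) := by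
        intro u; rw [hl]; ring
      simp only [e]
      rw [← Finset.mul_sum, hxd, mul_zero]
    have e2 : ∀ u, sgn (tyF m ty u) * (D * z u - s * y u) =
        D * (sgn (tyF m ty u) * z u) - s * (sgn (tyF m ty u) * y u) := fun u => by ring
    simp only [e2] at this
    rw [Finset.sum_sub_distrib, ← Finset.mul_sum, ← Finset.mul_sum] at this
    linarith
  -- the sums of `y`
  have k1 : (s1 : ℝ) * D = ∑ v, y v := by
    have h5 : ∑ v : Fin (m + 1), sfld Y wy v = ((sumB (fld Y wy) (m + 1) : ℕ) : ℤ) -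
        (((m + 1) * 2 ^ (wy - 1) : ℕ) : ℤ) := by
      rw [sumB_fin]
      simp only [sfld, Finset.sum_sub_distrib, Finset.sum_const, Finset.card_univ,
        Fintype.card_fin, nsmul_eq_mul]
      push_cast; ring
    have h6 : s1.num * (D : ℤ) = (s1.den : ℤ) * ∑ v : Fin (m + 1), sfld Y wy v := by
      rw [h5]; exact hs1
    have h7 := congrArg (fun z : ℤ => (z : ℝ)) h6
    simp only [Int.cast_mul, Int.cast_natCast, Int.cast_sum] at h7
    have hden : ((s1.den : ℕ) : ℝ) ≠ 0 := by exact_mod_cast s1.den_nz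
    rw [Rat.cast_def]
    rw [div_mul_eq_mul_div, h7]
    field_simp
    rfl
  have k2 : (sd : ℝ) * D = ∑ v, sgn (tyF m ty v) * y v := by
    have h5 : ∑ v : Fin (m + 1), (((1 - bn ty v : ℕ) : ℤ) - (bn ty v : ℤ)) * sfld Y wy v =
        (((sumB (fun u => Nat.mul (Nat.sub 1 (bn ty u)) (fld Y wy u)) (m + 1) : ℕ) : ℤ) -
        (((sumB (fun u => Nat.sub 1 (bn ty u)) (m + 1)) * 2 ^ (wy - 1) : ℕ) : ℤ)) -
        (((sumB (fun u => Nat.mul (bn ty u) (fld Y wy u)) (m + 1) : ℕ) : ℤ) -
        (((sumB (fun u => bn ty u) (m + 1)) * 2 ^ (wy - 1) : ℕ) : ℤ)) := by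
      rw [sumB_fin, sumB_fin, sumB_fin, sumB_fin]
      have e1 : ∀ u : Fin (m + 1), (((Nat.mul (Nat.sub 1 (bn ty u)) (fld Y wy u) : ℕ)) : ℤ) =
        ((1 - bn ty u : ℕ) : ℤ) * (fld Y wy u : ℤ) := fun u => Nat.cast_mul _ _
      have e2 : ∀ u : Fin (m + 1), (((Nat.mul (bn ty u) (fld Y wy u) : ℕ)) : ℤ) =
        (bn ty u : ℤ) * (fld Y wy u : ℤ) := fun u => Nat.cast_mul _ _
      have e3 : ∀ u : Fin (m + 1), Nat.sub 1 (bn ty u) = 1 - bn ty u := fun u => rfl
      simp only [Nat.cast_sum, e1, e2, Nat.cast_mul]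
      simp only [e3, sfld, sub_mul, mul_sub, Finset.sum_sub_distrib, Finset.sum_mul]
      ring
    have h6 : sd.num * (D : ℤ) = (sd.den : ℤ) *
        ∑ v : Fin (m + 1), (((1 - bn ty v : ℕ) : ℤ) - (bn ty v : ℤ)) * sfld Y wy v := by
      rw [h5]; exact hsd
    have h7 := congrArg (fun z : ℤ => (z : ℝ)) h6
    simp only [Int.cast_mul, Int.cast_natCast, Int.cast_sum] at h7
    have hden : ((sd.den : ℕ) : ℝ) ≠ 0 := by exact_mod_cast sd.den_nz
    rw [Rat.cast_def]
    rw [div_mul_eq_mul_div, h7]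
    simp only [sgn_eq]
    field_simp
    rfl
  constructor
  · apply mul_left_cancel₀ hDr
    rw [t1, ← k1]; ring
  · apply mul_left_cancel₀ hDr
    rw [t2, ← k2]; ring

theorem dpiece_of_check {c0 c1 : ℤ} {h0 h1 k : ℕ} {s1 sd : ℚ} {e : Fin k → Bool}
    (N X wx L w p K Y wy D : ℕ) (g : Fin k → G4)
    (h : chkD c0 c1 h0 h1 N X wx L w p K Y wy D k s1 sd g e = true) :
    DPiece c0 c1 h0 h1 (s1 : ℝ) (sd : ℝ) k e := by
  unfold chkD at h
  simp only [Bool.and_eq_true] at h
  obtain ⟨hn, hP, hG, hY⟩ := h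
  have hn' : 1 ≤ h0 + h1 := Nat.le_of_ble_eq_true hn
  obtain ⟨m, hm⟩ : ∃ m, h0 + h1 = m + 1 := ⟨h0 + h1 - 1, by omega⟩
  have hm2 : Nat.pred (Nat.add h0 h1) = m := by
    change Nat.pred (h0 + h1) = m
    rw [hm]; rfl
  rw [hm2] at hP hG hY
  set ty := Nat.mul (Nat.sub (Nat.pow 2 h1) 1) (Nat.pow 2 h0) with hty
  have hbt : ∀ u : Fin (m + 1), tyF m ty u = decide (h0 ≤ (u : ℕ)) := fun u =>
    bt_types h0 h1 u (by omega)
  have hPc := piece_of_check hP
  have e1 : QF true = fun s t => s == t := by funext s t; exact Bool.true_and _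
  have e2 : (fun t => (((Bool.rec c0 c1 t : ℤ)) : ℝ)) =
      fun t => if t then (c1 : ℝ) else (c0 : ℝ) := by
    funext t; cases t <;> simp
  have hcard1 : (Finset.univ.filter (fun v : Fin (m + 1) => tyF m ty v = true)).card = h1 := by
    simp only [hbt, decide_eq_true_eq]
    rw [Finset.card_filter, Fin.sum_univ_eq_sum_range (fun i => if h0 ≤ i then 1 else 0) (m + 1),
      ← hm, Finset.sum_range_add]
    rw [Finset.sum_eq_zero (fun i hi => if_neg (by have := Finset.mem_range.1 hi; omega)),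
      Finset.sum_congr rfl (fun i hi => if_pos (by omega)), Finset.sum_const, Finset.card_range]
    simp
  have hcard0 : (Finset.univ.filter (fun v : Fin (m + 1) => tyF m ty v = false)).card = h0 := by
    simp only [hbt, decide_eq_false_iff_not, not_le]
    rw [Finset.card_filter, Fin.sum_univ_eq_sum_range (fun i => if i < h0 then 1 else 0) (m + 1),
      ← hm, Finset.sum_range_add]
    rw [Finset.sum_congr rfl (fun i hi => if_pos (Finset.mem_range.1 hi)),
      Finset.sum_eq_zero (s := Finset.range h1) (fun i hi => if_neg (by omega)),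
      Finset.sum_const, Finset.card_range]
    simp
  have hYs := fun z s hz => chkY_sound hPc hY z s hz
  rw [e1, e2] at hPc
  rw [e1] at hYs
  exact ⟨Fin (m + 1), inferInstance, inferInstance, adjF m N, tyF m ty, xF m X wx,
    fun i => gadF m (g i), hcard0, hcard1, hPc, sys_of_check hG, hYs⟩

end Pool.Agent.helper40.NutCheck
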