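import Pool.Agent.helper22.Nut.Strong

/-!
# The closure of a finite table of strong pairs under the two merges
-/

namespace Pool.Agent.helper40.NutClosure

open Pool.Agent.helper22.Nut

/-- field `a` (64 bits) of the packed table `T`; bit `r` stands for the pair `(r, a)` -/
def F (T a : ℕ) : ℕ := Nat.mod (Nat.shiftRight T (Nat.mul 64 a)) (Nat.pow 2 64)

/-- all merges of the pairs of `T` of total order `n` -/
noncomputable def merges (T n l : ℕ) : ℕ :=
  Nat.rec 0 (fun i ih => Nat.lor (Nat.lor (Nat.land (F T (Nat.succ i)) (F T (Nat.sub n (Nat.succ i))))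
    (Nat.land (Nat.shiftLeft (F T (Nat.succ i)) (Nat.sub n (Nat.succ i)))
      (Nat.shiftLeft (F T (Nat.sub n (Nat.succ i))) (Nat.succ i)))) ih) l

/-- the table `T` is generated by the table `U` up to order `N` -/
noncomputable def chkT (T U N : ℕ) : Bool :=
  Nat.rec true (fun n ih => Bool.rec false ih (Nat.beq (Nat.land (F T n)
    (Nat.lor (F U n) (merges T n (Nat.pred n)))) (F T n))) N

/-- the packed table of a list of pairs -/
noncomputable def packL (l : List (ℕ × ℕ)) : ℕ :=
  List.rec 0 (fun q _ ih => Nat.lor (Nat.shiftLeft 1 (Nat.add (Nat.mul 64 q.2) q.1)) ih) l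

theorem testBit_F (T a r : ℕ) : (F T a).testBit r = (decide (r < 64) && T.testBit (64 * a + r)) := by
  unfold F
  change Nat.testBit ((T >>> (64 * a)) % 2 ^ 64) r = _
  rw [Nat.testBit_mod_two_pow, Nat.testBit_shiftRight]

theorem testBit_packL (l : List (ℕ × ℕ)) (i : ℕ) (h : (packL l).testBit i = true) :
    ∃ q ∈ l, i = 64 * q.2 + q.1 := by
  induction l with
  | nil =>
    have : packL [] = 0 := rfl
    rw [this, Nat.zero_testBit] at h
    exact absurd h (by simp)
  | cons q l ih =>
    have e : packL (q :: l) = (1 <<< (64 * q.2 + q.1)) ||| packL l := rfl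
    rw [e, Nat.testBit_or, Bool.or_eq_true] at h
    rcases h with h | h
    · rw [Nat.one_shiftLeft, Nat.testBit_two_pow] at h
      exact ⟨q, List.mem_cons_self, (of_decide_eq_true h).symm⟩
    · obtain ⟨q', h1, h2⟩ := ih h
      exact ⟨q', List.mem_cons_of_mem _ h1, h2⟩

theorem testBit_merges (T n l r : ℕ) (h : (merges T n l).testBit r = true) :
    ∃ a, 1 ≤ a ∧ a ≤ l ∧ (((F T a).testBit r = true ∧ (F T (n - a)).testBit r = true) ∨
      (n - a ≤ r ∧ a ≤ r ∧ (F T a).testBit (r - (n - a)) = true ∧
        (F T (n - a)).testBit (r - a) = true)) := by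
  induction l with
  | zero =>
    have : merges T n 0 = 0 := rfl
    rw [this, Nat.zero_testBit] at h
    exact absurd h (by simp)
  | succ l ih =>
    have e : merges T n (l + 1) = (((F T (l + 1)) &&& (F T (n - (l + 1)))) |||
      (((F T (l + 1)) <<< (n - (l + 1))) &&& ((F T (n - (l + 1))) <<< (l + 1)))) |||
        merges T n l := rfl
    rw [e, Nat.testBit_or, Nat.testBit_or, Nat.testBit_and, Nat.testBit_and,
      Nat.testBit_shiftLeft, Nat.testBit_shiftLeft] at h
    simp only [Bool.or_eq_true, Bool.and_eq_true, decide_eq_true_eq] at h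
    rcases h with (h | h) | h
    · exact ⟨l + 1, by omega, le_refl _, Or.inl h⟩
    · exact ⟨l + 1, by omega, le_refl _, Or.inr ⟨h.1.1, h.2.1, h.1.2, h.2.2⟩⟩
    · obtain ⟨a, h1, h2, h3⟩ := ih h
      exact ⟨a, h1, by omega, h3⟩

theorem chkT_spec (T U N : ℕ) (h : chkT T U N = true) : ∀ n < N,
    Nat.land (F T n) (Nat.lor (F U n) (merges T n (Nat.pred n))) = F T n := by
  induction N with
  | zero => intro n hn; omega
  | succ N ih =>
    have e : chkT T U (N + 1) = Bool.rec false (chkT T U N) (Nat.beq (Nat.land (F T N)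
      (Nat.lor (F U N) (merges T N (Nat.pred N)))) (F T N)) := rfl
    rw [e] at h
    cases hb : Nat.beq (Nat.land (F T N) (Nat.lor (F U N) (merges T N (Nat.pred N)))) (F T N) with
    | false => rw [hb] at h; exact absurd h (by simp)
    | true =>
      rw [hb] at h
      intro n hn
      rcases Nat.lt_succ_iff_lt_or_eq.1 hn with h1 | h1
      · exact ih h n h1
      · rw [h1]; exact Nat.eq_of_beq_eq_true hb

/-- every pair of the table is strong -/
theorem table_sound {T N : ℕ} {l : List (ℕ × ℕ)} (hl : ∀ q ∈ l, q.1 < 64 ∧ Strong q.1 q.2)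
    (h : chkT T (packL l) N = true) : ∀ n < N, ∀ r, (F T n).testBit r = true → Strong r n := by
  intro n
  induction n using Nat.strong_induction_on with
  | _ n ih =>
    intro hn r hr
    have h1 := chkT_spec _ _ _ h n hn
    have h2 : ((F T n) &&& ((F (packL l) n) ||| (merges T n (Nat.pred n)))).testBit r = true := by
      have : (F T n) &&& ((F (packL l) n) ||| (merges T n (Nat.pred n))) = F T n := h1
      rw [this]; exact hr
    rw [Nat.testBit_and, Nat.testBit_or] at h2
    simp only [Bool.or_eq_true, Bool.and_eq_true] at h2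
    rcases h2.2 with h3 | h3
    · rw [testBit_F] at h3
      simp only [Bool.and_eq_true, decide_eq_true_eq] at h3
      obtain ⟨q, hq, he⟩ := testBit_packL _ _ h3.2
      have hq' := hl q hq
      have e1 : q.2 = n := by omega
      have e2 : q.1 = r := by omega
      rw [← e1, ← e2]
      exact hq'.2
    · obtain ⟨a, ha1, ha2, h4⟩ := testBit_merges _ _ _ _ h3
      have ha3 : a < n := by
        have : Nat.pred n = n - 1 := rfl
        omega
      have e : a + (n - a) = n := by omega
      rcases h4 with ⟨h5, h6⟩ | ⟨h5, h6, h7, h8⟩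
      · have := (ih a ha3 (by omega) r h5).gmerge (ih (n - a) (by omega) (by omega) r h6)
        rw [e] at this
        exact this
      · have := (ih a ha3 (by omega) _ h7).hmerge (ih (n - a) (by omega) (by omega) _ h8)
          (by omega)
        rw [e] at this
        have e2 : r - (n - a) + (n - a) = r := by omega
        rw [e2] at this
        exact this

/-! ### The general induction -/

/-- the pairs we want -/
def Good (miss : List (ℕ × ℕ)) (r n : ℕ) : Prop :=
  3 ≤ r ∧ r + 4 ≤ n ∧ Even (r * n) ∧ (r, n) ∉ miss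

instance (miss : List (ℕ × ℕ)) (r n : ℕ) : Decidable (Good miss r n) := by
  unfold Good; infer_instance

/-- Boolean version, kernel friendly: pair `(r, n)` is either not good or a bit of the table -/
def chk1 (M T r n : ℕ) : Bool :=
  Bool.or (Nat.ble r 2) (Bool.or (Nat.ble n (Nat.add r 3))
    (Bool.or (Nat.beq (Nat.mod (Nat.mul r n) 2) 1)
      (Nat.beq (Nat.mod (Nat.shiftRight (Nat.lor M T) (Nat.add (Nat.mul 64 n) r)) 2) 1)))

/-- for all `r < R`, `n < N` -/
noncomputable def chkAll (M T N R : ℕ) : Bool :=
  Nat.rec true (fun n ih => Bool.rec false ih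
    (Nat.rec true (fun r ih' => Bool.rec false ih' (chk1 M T r n)) R)) N

theorem recAll (f : ℕ → Bool) (n : ℕ)
    (h : (Nat.rec true (fun k ih => Bool.rec false ih (f k)) n : Bool) = true) :
    ∀ i < n, f i = true := by
  induction n with
  | zero => intro i hi; omega
  | succ n ih =>
    have e : (Nat.rec true (fun k ih => Bool.rec false ih (f k)) (n + 1) : Bool) =
      Bool.rec false (Nat.rec true (fun k ih => Bool.rec false ih (f k)) n) (f n) := rfl
    rw [e] at h
    cases hf : f n with
    | false => rw [hf] at h; exact absurd h (by simp)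
    | true =>
      rw [hf] at h
      intro i hi
      rcases Nat.lt_succ_iff_lt_or_eq.1 hi with h1 | h1
      · exact ih h i h1
      · rw [h1]; exact hf

theorem small_of_check {T : ℕ} {miss : List (ℕ × ℕ)} (N : ℕ) (hN : N ≤ 64)
    (hm : ∀ q ∈ miss, q.1 < 64) (hT : ∀ n < N, ∀ r, (F T n).testBit r = true → Strong r n)
    (h : chkAll (packL miss) T N 64 = true) : ∀ r n, n < N → Good miss r n → Strong r n := by
  intro r n hn hg
  obtain ⟨g1, g2, g3, g4⟩ := hg
  have h1 := recAll _ N h n hn
  have h2 := recAll (fun r => chk1 (packL miss) T r n) 64 h1 r (by omega)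
  unfold chk1 at h2
  simp only [Bool.or_eq_true] at h2
  rcases h2 with h2 | h2 | h2 | h2
  · have := Nat.le_of_ble_eq_true h2; omega
  · have : n ≤ r + 3 := Nat.le_of_ble_eq_true h2
    omega
  · have : r * n % 2 = 1 := Nat.eq_of_beq_eq_true h2
    rw [Nat.even_iff] at g3; omega
  · have h3 : ((packL miss ||| T) >>> (64 * n + r)) % 2 = 1 := Nat.eq_of_beq_eq_true h2
    have h4 : (packL miss ||| T).testBit (64 * n + r) = true := by
      rw [Nat.testBit_eq_decide_div_mod_eq, ← Nat.shiftRight_eq_div_pow, h3]; rfl
    rw [Nat.testBit_or, Bool.or_eq_true] at h4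
    rcases h4 with h4 | h4
    · obtain ⟨q, hq, he⟩ := testBit_packL _ _ h4
      have hq' := hm q hq
      exfalso
      apply g4
      have e1 : q.2 = n := by omega
      have e2 : q.1 = r := by omega
      rw [← e1, ← e2]
      exact hq
    · apply hT n hn
      rw [testBit_F, h4, Bool.and_true]
      exact decide_eq_true (by omega)

theorem all_strong {miss : List (ℕ × ℕ)} (hmiss : ∀ q ∈ miss, q.2 ≤ 30)
    (hsmall : ∀ r n, n ≤ 62 → Good miss r n → Strong r n)
    (hD : ∀ r n, 62 < n → Even (r * n) → 2 * r ≤ n + 7 → n ≤ 2 * r + 9 → Strong r n) :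
    ∀ r n, Good miss r n → Strong r n := by
  intro r n
  induction n using Nat.strong_induction_on generalizing r with
  | _ n ih =>
    intro hg
    by_cases hn : n ≤ 62
    · exact hsmall r n hn hg
    push Not at hn
    obtain ⟨g1, g2, g3, g4⟩ := hg
    have nm : ∀ r' n', 30 < n' → (r', n') ∉ miss := by
      intro r' n' h1 h2
      have := hmiss _ h2
      simp only at this
      omega
    by_cases c1 : 2 * r + 10 ≤ n
    · -- G-merge
      obtain ⟨n1, n2, e, l1, l2, p1, p2⟩ : ∃ n1 n2, n1 + n2 = n ∧ r + 4 ≤ n1 ∧ r + 4 ≤ n2 ∧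
          (30 < n1 ∧ Even (r * n1)) ∧ (30 < n2 ∧ Even (r * n2)) := by
        rcases Nat.even_or_odd r with hr | hr
        · exact ⟨n / 2, n - n / 2, by omega, by omega, by omega,
            ⟨by omega, hr.mul_right _⟩, ⟨by omega, hr.mul_right _⟩⟩
        · have hn2 : Even n := by
            rcases Nat.even_mul.1 g3 with h | h
            · exact absurd hr (Nat.not_odd_iff_even.2 h)
            · exact h
          obtain ⟨m, hm⟩ := hn2
          rcases Nat.even_or_odd m with h | h
          · exact ⟨m, m, by omega, by omega, by omega, ⟨by omega, h.mul_left _⟩,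
              ⟨by omega, h.mul_left _⟩⟩
          · have e2 : Even (m + 1) := h.add_odd odd_one
            obtain ⟨t, ht⟩ := h
            have e1 : Even (m - 1) := ⟨t, by omega⟩
            exact ⟨m - 1, m + 1, by omega, by omega, by omega, ⟨by omega, e1.mul_left _⟩,
              ⟨by omega, e2.mul_left _⟩⟩
      have s1 := ih n1 (by omega) r ⟨g1, l1, p1.2, nm _ _ p1.1⟩
      have s2 := ih n2 (by omega) r ⟨g1, l2, p2.2, nm _ _ p2.1⟩
      rw [← e]
      exact s1.gmerge s2
    by_cases c2 : n + 8 ≤ 2 * r
    · -- H-merge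
      obtain ⟨k, hk⟩ : ∃ k, n = k + 1 + r := ⟨n - 1 - r, by omega⟩
      have par : ∀ m, k + 4 ≤ m → (Even k ∨ Even m) → Even ((m - 1 - k) * m) := by
        intro m hm h
        rcases Nat.even_or_odd m with h' | h'
        · exact h'.mul_left _
        · have hk' : Even k := by
            rcases h with h | h
            · exact h
            · exact absurd h' (Nat.not_odd_iff_even.2 h)
          apply Even.mul_right
          obtain ⟨t, ht⟩ := h'
          obtain ⟨u, hu⟩ := hk'
          exact ⟨t - u, by omega⟩
      obtain ⟨n1, n2, e, l1, l2, p1, p2⟩ : ∃ n1 n2, n1 + n2 = n ∧ k + 4 ≤ n1 ∧ k + 4 ≤ n2 ∧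
          (30 < n1 ∧ Even ((n1 - 1 - k) * n1)) ∧ (30 < n2 ∧ Even ((n2 - 1 - k) * n2)) := by
        rcases Nat.even_or_odd k with hr | hr
        · exact ⟨n / 2, n - n / 2, by omega, by omega, by omega,
            ⟨by omega, par _ (by omega) (Or.inl hr)⟩, ⟨by omega, par _ (by omega) (Or.inl hr)⟩⟩
        · have hn2 : Even n := by
            rcases Nat.even_mul.1 g3 with h | h
            · rw [hk]
              exact (hr.add_odd odd_one).add h
            · exact h
          obtain ⟨m, hm⟩ := hn2
          rcases Nat.even_or_odd m with h | h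
          · exact ⟨m, m, by omega, by omega, by omega, ⟨by omega, par _ (by omega) (Or.inr h)⟩,
              ⟨by omega, par _ (by omega) (Or.inr h)⟩⟩
          · have e2 : Even (m + 1) := h.add_odd odd_one
            obtain ⟨t, ht⟩ := h
            have e1 : Even (m - 1) := ⟨t, by omega⟩
            exact ⟨m - 1, m + 1, by omega, by omega, by omega,
              ⟨by omega, par _ (by omega) (Or.inr e1)⟩,
              ⟨by omega, par _ (by omega) (Or.inr e2)⟩⟩
      have s1 := ih n1 (by omega) (n1 - 1 - k) ⟨by omega, by omega, p1.2, nm _ _ p1.1⟩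
      have s2 := ih n2 (by omega) (n2 - 1 - k) ⟨by omega, by omega, p2.2, nm _ _ p2.1⟩
      have s3 := s1.hmerge s2 (by omega)
      have e3 : n1 - 1 - k + n2 = r := by omega
      rw [e3, e] at s3
      exact s3
    · exact hD r n hn g3 (by omega) (by omega)

end Pool.Agent.helper40.NutClosure
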