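import Pool.Agent.helper40.NutCheck
import Pool.Agent.helper22.Nut.Plain

/-!
# Kernel-checkable certificates for `Plain r n`
-/

namespace Pool.Agent.helper40.NutCheck

open Pool.Agent.helper22.Nut

/-- the checker for `Plain r n`, data as in `chkStrong` -/
noncomputable def chkPlain (r n N X wx L w p K : ℕ) : Bool :=
  Bool.and (Nat.ble 1 n) (chkPiece false (Nat.pred n) N 0 X wx L w p K (r : ℤ) (r : ℤ))

theorem plain_of_check {r n : ℕ} (N X wx L w p K : ℕ)
    (h : chkPlain r n N X wx L w p K = true) : Plain r n := by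
  unfold chkPlain at h
  simp only [Bool.and_eq_true] at h
  obtain ⟨h1, h2⟩ := h
  have hn : 1 ≤ n := Nat.le_of_ble_eq_true h1
  obtain ⟨m, rfl⟩ : ∃ m, n = m + 1 := ⟨n - 1, by omega⟩
  rw [Nat.pred_succ] at h2
  have hty : tyF m 0 = fun _ => false := by
    funext u; exact bt_zero _
  have p1 := piece_of_check h2
  rw [hty] at p1
  refine ⟨Fin (m + 1), inferInstance, inferInstance, adjF m N, xF m X wx,
    Fintype.card_fin _, ?_⟩
  have e1 : QF false = fun _ _ => false := by funext s t; rfl
  have e2 : (fun t => (((Bool.rec (r : ℤ) (r : ℤ) t : ℤ)) : ℝ)) = fun _ => (r : ℝ) := by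
    funext t; cases t <;> simp
  rw [e1, e2] at p1
  exact p1

end Pool.Agent.helper40.NutCheck
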