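import Mathlib

/-!
# Steiner triple systems, incidence graphs and minimum semidefinite rank: definitions
-/

open scoped ComplexOrder

namespace Pool.Agent.helper40.StsMsr

/-- A Steiner triple system on the point set `X`: a family of 3-element subsets (blocks) such that
any two distinct points lie in exactly one block. -/
structure STS (X : Type*) [DecidableEq X] where
  /-- the family of blocks -/
  blocks : Finset (Finset X)
  /-- every block has three elements -/
  card_three : ∀ B ∈ blocks, B.card = 3
  /-- two distinct points lie in exactly one block -/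
  exists_unique_block : ∀ x y : X, x ≠ y → ∃! B : Finset X, B ∈ blocks ∧ x ∈ B ∧ y ∈ B

/-- Two Steiner triple systems are isomorphic if some bijection between the point sets maps
blocks onto blocks. -/
def STS.Isomorphic {X Y : Type*} [DecidableEq X] [DecidableEq Y] (S : STS X) (T : STS Y) : Prop :=
  ∃ σ : X ≃ Y, ∀ B : Finset X, B ∈ S.blocks ↔ B.map σ.toEmbedding ∈ T.blocks

/-- The incidence graph: the bipartite graph on points and blocks, a point `x` being adjacent to a
block `B` iff `x ∈ B`. -/
def STS.incidenceGraph {X : Type*} [DecidableEq X] (S : STS X) :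
    SimpleGraph (X ⊕ {B : Finset X // B ∈ S.blocks}) where
  Adj p q := ∃ (x : X) (B : {B : Finset X // B ∈ S.blocks}), x ∈ B.1 ∧
    ((p = Sum.inl x ∧ q = Sum.inr B) ∨ (p = Sum.inr B ∧ q = Sum.inl x))
  symm := ⟨by
    rintro p q ⟨x, B, hx, h | h⟩
    · exact ⟨x, B, hx, Or.inr ⟨h.2, h.1⟩⟩
    · exact ⟨x, B, hx, Or.inl ⟨h.2, h.1⟩⟩⟩
  loopless := ⟨by
    rintro p ⟨x, B, hx, h | h⟩
    · exact Sum.inl_ne_inr (h.1.symm.trans h.2)
    · exact Sum.inr_ne_inl (h.1.symm.trans h.2)⟩

/-- The minimum semidefinite rank of a finite simple graph: the minimum rank of a complex Hermitian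
positive semidefinite matrix whose off-diagonal zero pattern is that of the graph (the diagonal
entries are unrestricted). -/
noncomputable def msr {V : Type*} [Fintype V] (G : SimpleGraph V) : ℕ :=
  sInf {k : ℕ | ∃ A : Matrix V V ℂ, A.PosSemidef ∧
    (∀ i j, i ≠ j → (A i j ≠ 0 ↔ G.Adj i j)) ∧ A.rank = k}

end Pool.Agent.helper40.StsMsr
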