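import Pool.Agent.helper40.StsDefs

/-!
# Two Steiner triple systems of the same order with different minimum semidefinite ranks: proofs
-/

open Finset Matrix
open scoped ComplexOrder MatrixOrder

namespace Pool.Agent.helper40.StsMsr

/-! ### The incidence graph -/

theorem STS.adj_pp {X : Type*} [DecidableEq X] (S : STS X) (x y : X) :
    S.incidenceGraph.Adj (Sum.inl x) (Sum.inl y) ↔ False := by
  refine ⟨?_, False.elim⟩
  rintro ⟨a, B, _, h | h⟩
  · exact Sum.inl_ne_inr h.2
  · exact Sum.inl_ne_inr h.1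

theorem STS.adj_bb {X : Type*} [DecidableEq X] (S : STS X) (B C : {B : Finset X // B ∈ S.blocks}) :
    S.incidenceGraph.Adj (Sum.inr B) (Sum.inr C) ↔ False := by
  refine ⟨?_, False.elim⟩
  rintro ⟨a, B, _, h | h⟩
  · exact Sum.inr_ne_inl h.1
  · exact Sum.inr_ne_inl h.2

theorem STS.adj_pb {X : Type*} [DecidableEq X] (S : STS X) (x : X)
    (B : {B : Finset X // B ∈ S.blocks}) :
    S.incidenceGraph.Adj (Sum.inl x) (Sum.inr B) ↔ x ∈ B.1 := by
  constructor
  · rintro ⟨a, C, ha, h | h⟩
    · rw [Sum.inl_injective h.1, Sum.inr_injective h.2]; exact ha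
    · exact absurd h.1 Sum.inl_ne_inr
  · intro h
    exact ⟨x, B, h, Or.inl ⟨rfl, rfl⟩⟩

theorem STS.adj_bp {X : Type*} [DecidableEq X] (S : STS X) (x : X)
    (B : {B : Finset X // B ∈ S.blocks}) :
    S.incidenceGraph.Adj (Sum.inr B) (Sum.inl x) ↔ x ∈ B.1 := by
  rw [S.incidenceGraph.adj_comm, S.adj_pb]

/-! ### Upper bound -/

theorem exists_coeff {p q r : ℝ} (h : p * q * r < 0) :
    ∃ a b c : ℝ, a ≠ 0 ∧ b ≠ 0 ∧ c ≠ 0 ∧ a * b = -p ∧ b * c = -q ∧ c * a = -r := by
  have hp : p ≠ 0 := by rintro rfl; simp at h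
  have hq : q ≠ 0 := by rintro rfl; simp at h
  have hr : r ≠ 0 := by rintro rfl; simp at h
  have hpos : 0 < -(p * r / q) := by
    have : -(p * r / q) = -(p * q * r) / q ^ 2 := by field_simp
    rw [this]
    apply div_pos (by linarith) (by positivity)
  have ha : Real.sqrt (-(p * r / q)) ≠ 0 := (Real.sqrt_pos.2 hpos).ne'
  have hsq : Real.sqrt (-(p * r / q)) * Real.sqrt (-(p * r / q)) = -(p * r / q) :=
    Real.mul_self_sqrt hpos.le
  refine ⟨Real.sqrt (-(p * r / q)), -p / Real.sqrt (-(p * r / q)), -r / Real.sqrt (-(p * r / q)),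
    ha, div_ne_zero (neg_ne_zero.2 hp) ha, div_ne_zero (neg_ne_zero.2 hr) ha, ?_, ?_, ?_⟩
  · rw [mul_div_cancel₀ _ ha]
  · rw [div_mul_div_comm, hsq]
    field_simp
  · rw [div_mul_cancel₀ _ ha]

theorem exists_coeff_block {X : Type*} [DecidableEq X] (W : X → X → ℝ) (hsymm : ∀ x y, W x y = W y x)
    (B : Finset X) (hB : B.card = 3)
    (hW : ∀ x y z : X, x ≠ y → y ≠ z → x ≠ z → B = {x, y, z} → W x y * W y z * W z x < 0) :
    ∃ α : X → ℝ, (∀ x, α x ≠ 0 ↔ x ∈ B) ∧ ∀ x ∈ B, ∀ y ∈ B, x ≠ y → α x * α y = - W x y := by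
  obtain ⟨x, y, z, hxy, hxz, hyz, rfl⟩ := Finset.card_eq_three.1 hB
  obtain ⟨a, b, c, ha, hb, hc, h1, h2, h3⟩ := exists_coeff (hW x y z hxy hyz hxz rfl)
  refine ⟨fun t => if t = x then a else if t = y then b else if t = z then c else 0, ?_, ?_⟩
  · intro t
    by_cases h1 : t = x
    · simp [h1, ha]
    · by_cases h2 : t = y
      · simp [h2, hb, hxy.symm]
      · by_cases h3 : t = z
        · simp [h3, hc, hxz.symm, hyz.symm]
        · simp [h1, h2, h3]
  · have h1' := hsymm x y
    have h2' := hsymm y z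
    have h3' := hsymm z x
    intro s hs t ht hst
    simp only [Finset.mem_insert, Finset.mem_singleton] at hs ht
    rcases hs with rfl | rfl | rfl <;> rcases ht with rfl | rfl | rfl <;>
      simp [hxy, hxz, hyz, hxy.symm, hxz.symm, hyz.symm] at hst ⊢ <;> linarith

theorem exists_rep_of_vectors {X : Type*} [Fintype X] [DecidableEq X] (S : STS X)
    {κ : Type*} [Fintype κ] (V : κ → X → ℝ)
    (hV : ∀ x y z : X, x ≠ y → y ≠ z → x ≠ z → ({x, y, z} : Finset X) ∈ S.blocks →
      (∑ k, V k x * V k y) * (∑ k, V k y * V k z) * (∑ k, V k z * V k x) < 0) :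
    ∃ A : Matrix (X ⊕ {B // B ∈ S.blocks}) (X ⊕ {B // B ∈ S.blocks}) ℂ, A.PosSemidef ∧
      (∀ i j, i ≠ j → (A i j ≠ 0 ↔ S.incidenceGraph.Adj i j)) ∧
      A.rank ≤ S.blocks.card + Fintype.card κ := by
  classical
  have hα : ∀ B : {B // B ∈ S.blocks}, ∃ α : X → ℝ, (∀ x, α x ≠ 0 ↔ x ∈ B.1) ∧
      ∀ x ∈ B.1, ∀ y ∈ B.1, x ≠ y → α x * α y = - (∑ k, V k x * V k y) := by
    intro B
    refine exists_coeff_block (fun x y => ∑ k, V k x * V k y) ?_ B.1 (S.card_three B.1 B.2) ?_
    · intro x y; simp only [mul_comm]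
    · intro x y z hxy hyz hxz hB
      exact hV x y z hxy hyz hxz (hB ▸ B.2)
  choose α hα1 hα2 using hα
  obtain ⟨M, hM1, hM2, hM3, hM4⟩ : ∃ M : Matrix ({B // B ∈ S.blocks} ⊕ κ) (X ⊕ {B // B ∈ S.blocks}) ℂ,
      (∀ B x, M (Sum.inl B) (Sum.inl x) = (α B x : ℂ)) ∧
      (∀ B C, M (Sum.inl B) (Sum.inr C) = if B = C then 1 else 0) ∧
      (∀ k x, M (Sum.inr k) (Sum.inl x) = (V k x : ℂ)) ∧
      (∀ k C, M (Sum.inr k) (Sum.inr C) = 0) :=
    ⟨Matrix.of fun i j =>
      match i, j with
      | Sum.inl B, Sum.inl x => (α B x : ℂ)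
      | Sum.inl B, Sum.inr C => if B = C then 1 else 0
      | Sum.inr k, Sum.inl x => (V k x : ℂ)
      | Sum.inr _, Sum.inr _ => 0, fun _ _ => rfl, fun _ _ => rfl, fun _ _ => rfl, fun _ _ => rfl⟩
  refine ⟨Mᴴ * M, Matrix.posSemidef_conjTranspose_mul_self M, ?_, ?_⟩
  · rintro (x | B) (y | C) hne
    · have hxy : x ≠ y := fun h => hne (by rw [h])
      have hadj : ¬ S.incidenceGraph.Adj (Sum.inl x) (Sum.inl y) := (S.adj_pp x y).1
      simp only [hadj, iff_false, not_not]
      rw [Matrix.mul_apply, Fintype.sum_sum_type]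
      simp only [Matrix.conjTranspose_apply, hM1, hM3, RCLike.star_def, Complex.conj_ofReal]
      obtain ⟨B, ⟨hB, hxB, hyB⟩, huniq⟩ := S.exists_unique_block x y hxy
      rw [Finset.sum_eq_single (⟨B, hB⟩ : {B // B ∈ S.blocks})]
      · have := hα2 ⟨B, hB⟩ x hxB y hyB hxy
        rw [← Complex.ofReal_mul, this]
        push_cast
        ring
      · intro C _ hC
        by_cases hx : x ∈ C.1
        · have hy : y ∉ C.1 := fun hy => hC (Subtype.ext (huniq C.1 ⟨C.2, hx, hy⟩))
          have := (hα1 C y).not.2 hy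
          simp only [not_not] at this
          simp [this]
        · have := (hα1 C x).not.2 hx
          simp only [not_not] at this
          simp [this]
      · simp
    · have hadj := S.adj_pb x C
      rw [hadj, ← hα1 C x, Matrix.mul_apply, Fintype.sum_sum_type]
      simp [hM1, hM2, hM3, hM4, Matrix.conjTranspose_apply]
    · have hadj := S.adj_bp y B
      rw [hadj, ← hα1 B y, Matrix.mul_apply, Fintype.sum_sum_type]
      simp [hM1, hM2, hM3, hM4, Matrix.conjTranspose_apply, apply_ite]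
    · have hBC : B ≠ C := fun h => hne (by rw [h])
      have hadj : ¬ S.incidenceGraph.Adj (Sum.inr B) (Sum.inr C) := (S.adj_bb B C).1
      simp only [hadj, iff_false, not_not]
      rw [Matrix.mul_apply, Fintype.sum_sum_type]
      simp [hM2, hM4, Matrix.conjTranspose_apply, apply_ite, hBC.symm]
  · rw [Matrix.rank_conjTranspose_mul_self]
    refine (Matrix.rank_le_card_height M).trans ?_
    rw [Fintype.card_sum, Fintype.card_coe]


/-! ### Lower bound -/

theorem exists_vectors_of_rep {X : Type*} [Fintype X] [DecidableEq X] (S : STS X) {r : ℕ}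
    (A : Matrix (X ⊕ {B // B ∈ S.blocks}) (X ⊕ {B // B ∈ S.blocks}) ℂ) (hA : A.PosSemidef)
    (hpat : ∀ i j, i ≠ j → (A i j ≠ 0 ↔ S.incidenceGraph.Adj i j))
    (hrank : A.rank ≤ S.blocks.card + r) :
    ∃ d ≤ r, ∃ w : X → EuclideanSpace ℂ (Fin d),
      ∀ B ∈ S.blocks, ∀ x ∈ B, ∀ y ∈ B, ∀ z ∈ B, x ≠ y → y ≠ z → x ≠ z →
        ∃ c : ℝ, c < 0 ∧
          inner ℂ (w x) (w y) * inner ℂ (w y) (w z) * inner ℂ (w z) (w x) = (c : ℂ) := by
  classical
  obtain ⟨M, hM⟩ := CStarAlgebra.nonneg_iff_eq_star_mul_self.1 hA.nonneg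
  rw [Matrix.star_eq_conjTranspose] at hM
  set m : (X ⊕ {B // B ∈ S.blocks}) → EuclideanSpace ℂ (X ⊕ {B // B ∈ S.blocks}) :=
    fun j => WithLp.toLp 2 (M.col j) with hm
  have hinner : ∀ i j, inner ℂ (m i) (m j) = A i j := by
    intro i j
    rw [hM, Matrix.mul_apply, EuclideanSpace.inner_eq_star_dotProduct]
    simp only [hm, dotProduct, Matrix.conjTranspose_apply, Matrix.col_apply, Pi.star_apply]
    exact Finset.sum_congr rfl fun k _ => mul_comm _ _
  have hA_rank : A.rank = Module.finrank ℂ (Submodule.span ℂ (Set.range m)) := by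
    rw [hM, Matrix.rank_conjTranspose_mul_self, Matrix.rank_eq_finrank_span_cols]
    have : Submodule.span ℂ (Set.range m) = (Submodule.span ℂ (Set.range M.col)).map
        ((WithLp.linearEquiv 2 ℂ ((X ⊕ {B // B ∈ S.blocks}) → ℂ)).symm : _ →ₗ[ℂ] _) := by
      rw [Submodule.map_span, ← Set.range_comp]
      rfl
    rw [this, LinearEquiv.finrank_map_eq]
  -- block vectors
  set q : {B // B ∈ S.blocks} → EuclideanSpace ℂ (X ⊕ {B // B ∈ S.blocks}) :=
    fun B => m (Sum.inr B) with hq
  have hqq : ∀ B C, B ≠ C → inner ℂ (q B) (q C) = 0 := by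
    intro B C hBC
    rw [hq, hinner]
    by_contra h
    exact (S.adj_bb B C).1 ((hpat (Sum.inr B) (Sum.inr C) (by simpa using hBC)).1 h)
  have hmq : ∀ x B, inner ℂ (m (Sum.inl x)) (q B) ≠ 0 ↔ x ∈ B.1 := by
    intro x B
    rw [hq, hinner]
    exact (hpat (Sum.inl x) (Sum.inr B) (by simp)).trans (S.adj_pb x B)
  have hqm : ∀ x B, inner ℂ (q B) (m (Sum.inl x)) ≠ 0 ↔ x ∈ B.1 := by
    intro x B
    rw [← hmq x B]
    exact inner_eq_zero_symm.not
  have hmm : ∀ x y, x ≠ y → inner ℂ (m (Sum.inl x)) (m (Sum.inl y)) = 0 := by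
    intro x y hxy
    rw [hinner]
    by_contra h
    exact (S.adj_pp x y).1 ((hpat (Sum.inl x) (Sum.inl y) (by simpa using hxy)).1 h)
  have hq0 : ∀ B, q B ≠ 0 := by
    intro B h0
    have hne : B.1.Nonempty := by
      rw [← Finset.card_pos, S.card_three B.1 B.2]; norm_num
    obtain ⟨x, hx⟩ := hne
    apply (hmq x B).2 hx
    rw [h0, inner_zero_right]
  have hqq0 : ∀ B, inner ℂ (q B) (q B) ≠ 0 := fun B => inner_self_ne_zero.2 (hq0 B)
  set w : X → EuclideanSpace ℂ (X ⊕ {B // B ∈ S.blocks}) := fun x =>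
    m (Sum.inl x) - ∑ B, (inner ℂ (q B) (m (Sum.inl x)) / inner ℂ (q B) (q B)) • q B with hw
  have hqw : ∀ C x, inner ℂ (q C) (w x) = 0 := by
    intro C x
    rw [hw]
    simp only [inner_sub_right, inner_sum, inner_smul_right]
    rw [Finset.sum_eq_single C]
    · rw [div_mul_cancel₀ _ (hqq0 C), sub_self]
    · intro B _ hBC
      rw [hqq C B hBC.symm, mul_zero]
    · simp
  have hwq : ∀ C x, inner ℂ (w x) (q C) = 0 := by
    intro C x
    rw [← inner_conj_symm, hqw, map_zero]
  have hww : ∀ x y, inner ℂ (w x) (w y) = inner ℂ (m (Sum.inl x)) (m (Sum.inl y)) -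
      ∑ B, (inner ℂ (q B) (m (Sum.inl y)) / inner ℂ (q B) (q B)) *
        inner ℂ (m (Sum.inl x)) (q B) := by
    intro x y
    have h1 : inner ℂ (w x) (w y) = inner ℂ (m (Sum.inl x)) (w y) := by
      conv_lhs => rw [hw]
      simp only [inner_sub_left, sum_inner, inner_smul_left]
      rw [sub_eq_self]
      apply Finset.sum_eq_zero
      intro B _
      have := hqw B y
      rw [hw] at this
      rw [this, mul_zero]
    rw [h1]
    conv_lhs => rw [hw]
    simp only [inner_sub_right, inner_sum, inner_smul_right]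
  have hblock : ∀ B : {B // B ∈ S.blocks}, ∀ x ∈ B.1, ∀ y ∈ B.1, x ≠ y →
      inner ℂ (w x) (w y) = - (inner ℂ (q B) (m (Sum.inl y)) *
        (starRingEnd ℂ) (inner ℂ (q B) (m (Sum.inl x))) / inner ℂ (q B) (q B)) := by
    intro B x hx y hy hxy
    rw [hww, hmm x y hxy, zero_sub, inner_conj_symm, Finset.sum_eq_single B]
    · ring
    · intro C _ hCB
      by_cases hxC : x ∈ C.1
      · have hyC : y ∉ C.1 := by
          intro hyC
          apply hCB
          obtain ⟨D, _, huniq⟩ := S.exists_unique_block x y hxy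
          have h1 := huniq C.1 ⟨C.2, hxC, hyC⟩
          have h2 := huniq B.1 ⟨B.2, hx, hy⟩
          exact Subtype.ext (h1.trans h2.symm)
        have := (hqm y C).not.2 hyC
        simp only [not_not] at this
        rw [this]; ring
      · have := (hmq x C).not.2 hxC
        simp only [not_not] at this
        rw [this]; ring
    · simp
  -- dimension count
  have hfin : Module.finrank ℂ (Submodule.span ℂ (Set.range w)) ≤ r := by
    have hli : LinearIndependent ℂ q := by
      apply linearIndependent_of_ne_zero_of_inner_eq_zero hq0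
      intro B C hBC
      exact hqq B C hBC
    have hcard : Module.finrank ℂ (Submodule.span ℂ (Set.range q)) = S.blocks.card := by
      rw [finrank_span_eq_card hli, Fintype.card_coe]
    have hqU : Submodule.span ℂ (Set.range q) ≤ Submodule.span ℂ (Set.range m) := by
      apply Submodule.span_mono
      rintro _ ⟨B, rfl⟩
      exact ⟨Sum.inr B, rfl⟩
    have hwU : Submodule.span ℂ (Set.range w) ≤ Submodule.span ℂ (Set.range m) := by
      rw [Submodule.span_le]
      rintro _ ⟨x, rfl⟩
      rw [hw]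
      apply Submodule.sub_mem
      · exact Submodule.subset_span ⟨Sum.inl x, rfl⟩
      · apply Submodule.sum_mem
        intro B _
        exact Submodule.smul_mem _ _ (Submodule.subset_span ⟨Sum.inr B, rfl⟩)
    have horth : Submodule.span ℂ (Set.range w) ⟂ Submodule.span ℂ (Set.range q) := by
      rw [Submodule.isOrtho_span]
      rintro _ ⟨x, rfl⟩ _ ⟨C, rfl⟩
      exact hwq C x
    have hinf : Submodule.span ℂ (Set.range w) ⊓ Submodule.span ℂ (Set.range q) = ⊥ :=
      horth.disjoint.eq_bot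
    have hsum := Submodule.finrank_sup_add_finrank_inf_eq (Submodule.span ℂ (Set.range w))
      (Submodule.span ℂ (Set.range q))
    rw [hinf, finrank_bot, add_zero, hcard] at hsum
    have hle := Submodule.finrank_mono (sup_le hwU hqU)
    rw [hsum, ← hA_rank] at hle
    omega
  refine ⟨Module.finrank ℂ (Submodule.span ℂ (Set.range w)), hfin, fun x =>
    (stdOrthonormalBasis ℂ (Submodule.span ℂ (Set.range w))).repr
      ⟨w x, Submodule.subset_span ⟨x, rfl⟩⟩, ?_⟩
  intro B hB x hx y hy z hz hxy hyz hxz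
  simp only [LinearIsometryEquiv.inner_map_map, Submodule.coe_inner]
  rw [hblock ⟨B, hB⟩ x hx y hy hxy, hblock ⟨B, hB⟩ y hy z hz hyz, hblock ⟨B, hB⟩ z hz x hx hxz.symm]
  set N := inner ℂ (q ⟨B, hB⟩) (q ⟨B, hB⟩) with hN
  have hNreal : N = ((‖q ⟨B, hB⟩‖ ^ 2 : ℝ) : ℂ) := by
    rw [hN, inner_self_eq_norm_sq_to_K]; push_cast; rfl
  have hNpos : 0 < ‖q ⟨B, hB⟩‖ ^ 2 := by
    have := norm_pos_iff.2 (hq0 ⟨B, hB⟩)
    positivity
  set a := inner ℂ (q ⟨B, hB⟩) (m (Sum.inl x)) with ha
  set b := inner ℂ (q ⟨B, hB⟩) (m (Sum.inl y)) with hb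
  set c := inner ℂ (q ⟨B, hB⟩) (m (Sum.inl z)) with hc
  have ha0 : a ≠ 0 := (hqm x ⟨B, hB⟩).2 hx
  have hb0 : b ≠ 0 := (hqm y ⟨B, hB⟩).2 hy
  have hc0 : c ≠ 0 := (hqm z ⟨B, hB⟩).2 hz
  refine ⟨-(Complex.normSq a * Complex.normSq b * Complex.normSq c / (‖q ⟨B, hB⟩‖ ^ 2) ^ 3), ?_, ?_⟩
  · have h1 := Complex.normSq_pos.2 ha0
    have h2 := Complex.normSq_pos.2 hb0
    have h3 := Complex.normSq_pos.2 hc0
    rw [neg_lt_zero]
    positivity
  · rw [hNreal]
    push_cast
    rw [← Complex.mul_conj a, ← Complex.mul_conj b, ← Complex.mul_conj c]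
    ring


/-! ### Clusters on the unit sphere -/

theorem re_pos_of_close {E : Type*} [NormedAddCommGroup E] [InnerProductSpace ℂ E] {u v s : E}
    (hu : ‖u‖ = 1) (hv : ‖v‖ = 1) (hs : ‖s‖ = 1) (h1 : ‖v - u‖ < 1 / 5) (h2 : ‖s - v‖ < 1 / 5)
    (h3 : ‖u - s‖ < 1 / 5) : 0 < (inner ℂ u v * inner ℂ v s * inner ℂ s u).re := by
  have key : ∀ {a b : E}, ‖a‖ = 1 → ‖b - a‖ < 1 / 5 → ‖inner ℂ a b - 1‖ < 1 / 5 := by
    intro a b ha hab
    have : inner ℂ a b - 1 = inner ℂ a (b - a) := by
      rw [inner_sub_right, inner_self_eq_norm_sq_to_K, ha]; simp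
    rw [this]
    refine (norm_inner_le_norm a (b - a)).trans_lt ?_
    rw [ha, one_mul]; exact hab
  have hle : ∀ {a b : E}, ‖a‖ = 1 → ‖b‖ = 1 → ‖(inner ℂ a b : ℂ)‖ ≤ 1 := by
    intro a b ha hb
    refine (norm_inner_le_norm a b).trans ?_
    rw [ha, hb, one_mul]
  have ha := key hu h1
  have hb := key hv h2
  have hc := key hs h3
  set a : ℂ := inner ℂ u v
  set b : ℂ := inner ℂ v s
  set c : ℂ := inner ℂ s u
  have hb1 : ‖b‖ ≤ 1 := hle hv hs
  have hc1 : ‖c‖ ≤ 1 := hle hs hu
  have hident : a * b * c - 1 = (a - 1) * (b * c) + ((b - 1) * c + (c - 1)) := by ring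
  have hnorm : ‖a * b * c - 1‖ < 1 := by
    rw [hident]
    calc ‖(a - 1) * (b * c) + ((b - 1) * c + (c - 1))‖
        ≤ ‖(a - 1) * (b * c)‖ + (‖(b - 1) * c‖ + ‖c - 1‖) :=
          (norm_add_le _ _).trans (add_le_add_right (norm_add_le _ _) _)
      _ ≤ 1 / 5 * 1 + (1 / 5 * 1 + 1 / 5) := by
          have e1 : ‖(a - 1) * (b * c)‖ ≤ 1 / 5 * 1 := by
            rw [norm_mul, norm_mul]
            exact mul_le_mul ha.le (mul_le_one₀ hb1 (norm_nonneg _) hc1) (by positivity) (by norm_num)
          have e2 : ‖(b - 1) * c‖ ≤ 1 / 5 * 1 := by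
            rw [norm_mul]
            exact mul_le_mul hb.le hc1 (by positivity) (by norm_num)
          linarith
      _ < 1 := by norm_num
  have hre : (a * b * c).re = 1 + (a * b * c - 1).re := by simp
  rw [hre]
  have := Complex.abs_re_le_norm (a * b * c - 1)
  have := neg_abs_le (a * b * c - 1).re
  linarith

theorem exists_large_cluster (d : ℕ) : ∃ K : ℕ, 0 < K ∧ ∀ (X : Type) [Fintype X]
    (w : X → EuclideanSpace ℂ (Fin d)), (∀ x, w x ≠ 0) →
    ∃ I : Finset X, Fintype.card X ≤ K * I.card ∧ ∀ x ∈ I, ∀ y ∈ I, ∀ z ∈ I,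
      0 < (inner ℂ (w x) (w y) * inner ℂ (w y) (w z) * inner ℂ (w z) (w x)).re := by
  classical
  obtain ⟨t, -, htfin, htcov⟩ := (isCompact_sphere (0 : EuclideanSpace ℂ (Fin d)) 1).finite_cover_balls
    (show (0 : ℝ) < 1 / 10 by norm_num)
  refine ⟨htfin.toFinset.card + 1, Nat.succ_pos _, ?_⟩
  intro X _ w hw
  rcases isEmpty_or_nonempty X with hX | hX
  · exact ⟨∅, by simp, by simp⟩
  set u : X → EuclideanSpace ℂ (Fin d) := fun x => ((‖w x‖⁻¹ : ℝ) : ℂ) • w x with hu
  have hu1 : ∀ x, ‖u x‖ = 1 := by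
    intro x
    have := norm_pos_iff.2 (hw x)
    rw [hu]
    simp only [norm_smul, Complex.norm_real, norm_inv, norm_norm]
    exact inv_mul_cancel₀ this.ne'
  have hwu : ∀ x, w x = ((‖w x‖ : ℝ) : ℂ) • u x := by
    intro x
    have := norm_pos_iff.2 (hw x)
    rw [hu]
    simp only [smul_smul, ← Complex.ofReal_mul]
    rw [mul_inv_cancel₀ this.ne', Complex.ofReal_one, one_smul]
  have hc : ∀ x, ∃ c ∈ htfin.toFinset, dist (u x) c < 1 / 10 := by
    intro x
    have hx : u x ∈ Metric.sphere (0 : EuclideanSpace ℂ (Fin d)) 1 := by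
      simp [hu1 x]
    have := htcov hx
    simp only [Set.mem_iUnion, Metric.mem_ball, exists_prop] at this
    obtain ⟨c, hc, hd⟩ := this
    exact ⟨c, by simpa using hc, hd⟩
  choose f hf1 hf2 using hc
  have hne : htfin.toFinset.Nonempty := ⟨f hX.some, hf1 _⟩
  obtain ⟨c, hc, hmax⟩ := Finset.exists_max_image htfin.toFinset
    (fun c => (Finset.univ.filter fun x => f x = c).card) hne
  refine ⟨Finset.univ.filter fun x => f x = c, ?_, ?_⟩
  · have := Finset.card_le_mul_card_image_of_maps_to (s := (Finset.univ : Finset X))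
      (t := htfin.toFinset) (f := f) (fun x _ => hf1 x) _ hmax
    rw [Finset.card_univ] at this
    refine this.trans ?_
    rw [mul_comm]
    exact Nat.mul_le_mul_right _ (Nat.le_succ _)
  · intro x hx y hy z hz
    simp only [Finset.mem_filter, Finset.mem_univ, true_and] at hx hy hz
    have hclose : ∀ {x y}, f x = c → f y = c → ‖u y - u x‖ < 1 / 5 := by
      intro x y hx hy
      rw [← dist_eq_norm]
      have h1 := hf2 x
      have h2 := hf2 y
      rw [hx] at h1
      rw [hy] at h2
      calc dist (u y) (u x) ≤ dist (u y) c + dist (u x) c := dist_triangle_right _ _ _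
        _ < 1 / 5 := by linarith
    have hpos := re_pos_of_close (hu1 x) (hu1 y) (hu1 z) (hclose hx hy) (hclose hy hz) (hclose hz hx)
    have hprod : inner ℂ (w x) (w y) * inner ℂ (w y) (w z) * inner ℂ (w z) (w x) =
        (((‖w x‖ ^ 2 * ‖w y‖ ^ 2 * ‖w z‖ ^ 2 : ℝ)) : ℂ) *
        (inner ℂ (u x) (u y) * inner ℂ (u y) (u z) * inner ℂ (u z) (u x)) := by
      conv_lhs => rw [hwu x, hwu y, hwu z]
      simp only [inner_smul_left, inner_smul_right, Complex.conj_ofReal]
      push_cast
      ring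
    rw [hprod, Complex.re_ofReal_mul]
    have h1 := norm_pos_iff.2 (hw x)
    have h2 := norm_pos_iff.2 (hw y)
    have h3 := norm_pos_iff.2 (hw z)
    positivity

theorem exists_large_cluster_le (r : ℕ) : ∃ K : ℕ, 0 < K ∧ ∀ d ≤ r, ∀ (X : Type) [Fintype X]
    (w : X → EuclideanSpace ℂ (Fin d)), (∀ x, w x ≠ 0) →
    ∃ I : Finset X, Fintype.card X ≤ K * I.card ∧ ∀ x ∈ I, ∀ y ∈ I, ∀ z ∈ I,
      0 < (inner ℂ (w x) (w y) * inner ℂ (w y) (w z) * inner ℂ (w z) (w x)).re := by
  induction r with
  | zero =>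
    obtain ⟨K, hK, h⟩ := exists_large_cluster 0
    refine ⟨K, hK, ?_⟩
    intro d hd
    obtain rfl : d = 0 := by omega
    exact h
  | succ r ih =>
    obtain ⟨K, hK, h⟩ := ih
    obtain ⟨L, hL, h'⟩ := exists_large_cluster (r + 1)
    refine ⟨K + L, by omega, ?_⟩
    intro d hd X _ w hw
    rcases Nat.lt_or_ge r d with hlt | hle
    · obtain rfl : d = r + 1 := by omega
      obtain ⟨I, hI, hI'⟩ := h' X w hw
      exact ⟨I, hI.trans (Nat.mul_le_mul_right _ (by omega)), hI'⟩
    · obtain ⟨I, hI, hI'⟩ := h d hle X w hw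
      exact ⟨I, hI.trans (Nat.mul_le_mul_right _ (by omega)), hI'⟩

/-! ### Steiner triple systems from a third-point operation -/

section Third

variable {X : Type*} [Fintype X] [DecidableEq X]

/-- The system whose blocks are the sets `{x, y, t x y}`. -/
def STS.ofThird (t : X → X → X) (h1 : ∀ x y, x ≠ y → t x y = t y x)
    (h2 : ∀ x y, x ≠ y → t x y ≠ x) (h3 : ∀ x y, x ≠ y → t x (t x y) = y) : STS X where
  blocks := (Finset.univ.filter fun p : X × X => p.1 ≠ p.2).image fun p => {p.1, p.2, t p.1 p.2}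
  card_three := by
    intro B hB
    simp only [Finset.mem_image, Finset.mem_filter, Finset.mem_univ, true_and, Prod.exists] at hB
    obtain ⟨x, y, hxy, rfl⟩ := hB
    have hyx : t x y ≠ y := by rw [h1 x y hxy]; exact h2 y x hxy.symm
    exact Finset.card_eq_three.2 ⟨x, y, t x y, hxy, (h2 x y hxy).symm, hyx.symm, rfl⟩
  exists_unique_block := by
    intro x y hxy
    refine ⟨{x, y, t x y}, ⟨?_, by simp, by simp⟩, ?_⟩
    · simp only [Finset.mem_image, Finset.mem_filter, Finset.mem_univ, true_and, Prod.exists]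
      exact ⟨x, y, hxy, rfl⟩
    · rintro C ⟨hC, hxC, hyC⟩
      simp only [Finset.mem_image, Finset.mem_filter, Finset.mem_univ, true_and, Prod.exists] at hC
      obtain ⟨a, b, hab, rfl⟩ := hC
      have hta : t a b ≠ a := h2 a b hab
      have htb : t a b ≠ b := by rw [h1 a b hab]; exact h2 b a hab.symm
      have e1 : t a (t a b) = b := h3 a b hab
      have e2 : t b (t a b) = a := by rw [h1 a b hab]; exact h3 b a hab.symm
      have e3 : t (t a b) a = b := by rw [h1 _ _ hta]; exact e1
      have e4 : t (t a b) b = a := by rw [h1 _ _ htb]; exact e2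
      have e5 : t b a = t a b := h1 b a hab.symm
      simp only [Finset.mem_insert, Finset.mem_singleton] at hxC hyC
      rcases hxC with rfl | rfl | rfl <;> rcases hyC with rfl | rfl | rfl
      · exact absurd rfl hxy
      · rfl
      · rw [e1]; ext s; simp only [Finset.mem_insert, Finset.mem_singleton]; tauto
      · rw [e5]; ext s; simp only [Finset.mem_insert, Finset.mem_singleton]; tauto
      · exact absurd rfl hxy
      · rw [e2]; ext s; simp only [Finset.mem_insert, Finset.mem_singleton]; tauto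
      · rw [e3]; ext s; simp only [Finset.mem_insert, Finset.mem_singleton]; tauto
      · rw [e4]; ext s; simp only [Finset.mem_insert, Finset.mem_singleton]; tauto
      · exact absurd rfl hxy

theorem STS.mem_ofThird {t : X → X → X} {h1 : ∀ x y, x ≠ y → t x y = t y x}
    {h2 : ∀ x y, x ≠ y → t x y ≠ x} {h3 : ∀ x y, x ≠ y → t x (t x y) = y} {x y : X} (hxy : x ≠ y) :
    ({x, y, t x y} : Finset X) ∈ (STS.ofThird t h1 h2 h3).blocks := by
  simp only [STS.ofThird, Finset.mem_image, Finset.mem_filter, Finset.mem_univ, true_and,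
    Prod.exists]
  exact ⟨x, y, hxy, rfl⟩

theorem STS.eq_third {t : X → X → X} {h1 : ∀ x y, x ≠ y → t x y = t y x}
    {h2 : ∀ x y, x ≠ y → t x y ≠ x} {h3 : ∀ x y, x ≠ y → t x (t x y) = y} {x y z : X}
    (hxy : x ≠ y) (hyz : y ≠ z) (hxz : x ≠ z)
    (hB : ({x, y, z} : Finset X) ∈ (STS.ofThird t h1 h2 h3).blocks) : z = t x y := by
  obtain ⟨D, _, huniq⟩ := (STS.ofThird t h1 h2 h3).exists_unique_block x y hxy
  have e1 := huniq _ ⟨hB, by simp, by simp⟩
  have e2 := huniq _ ⟨STS.mem_ofThird hxy, by simp, by simp⟩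
  have : z ∈ ({x, y, t x y} : Finset X) := by
    rw [e2, ← e1]; simp
  simp only [Finset.mem_insert, Finset.mem_singleton] at this
  rcases this with h | h | h
  · exact absurd h.symm hxz
  · exact absurd h.symm hyz
  · exact h

end Third

/-- The number of blocks. -/
theorem STS.card_blocks {X : Type*} [Fintype X] [DecidableEq X] (S : STS X) :
    S.blocks.card * 6 = Fintype.card X * Fintype.card X - Fintype.card X := by
  have h : (Finset.univ : Finset X).offDiag = S.blocks.biUnion fun B => B.offDiag := by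
    ext ⟨x, y⟩
    simp only [Finset.mem_offDiag, Finset.mem_univ, true_and, Finset.mem_biUnion]
    constructor
    · intro hxy
      obtain ⟨B, ⟨hB, hx, hy⟩, _⟩ := S.exists_unique_block x y hxy
      exact ⟨B, hB, hx, hy, hxy⟩
    · rintro ⟨B, _, _, _, hxy⟩
      exact hxy
  have h2 := congrArg Finset.card h
  rw [Finset.offDiag_card, Finset.card_biUnion, Finset.card_univ] at h2
  · rw [h2, Finset.sum_congr rfl (fun B hB => ?_), Finset.sum_const, smul_eq_mul]
    rw [Finset.offDiag_card, S.card_three B hB]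
  · intro B hB C hC hBC
    change Disjoint B.offDiag C.offDiag
    rw [Finset.disjoint_left]
    rintro ⟨x, y⟩ h1 h2
    rw [Finset.mem_offDiag] at h1 h2
    obtain ⟨D, _, huniq⟩ := S.exists_unique_block x y h1.2.2
    exact hBC ((huniq B ⟨hB, h1.1, h1.2.1⟩).trans (huniq C ⟨hC, h2.1, h2.2.1⟩).symm)


/-! ### Invariance -/

theorem msr_congr {V W : Type*} [Fintype V] [Fintype W] {G : SimpleGraph V} {H : SimpleGraph W}
    (e : V ≃ W) (h : ∀ i j, G.Adj i j ↔ H.Adj (e i) (e j)) : msr G = msr H := by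
  unfold msr
  congr 1
  ext k
  constructor
  · rintro ⟨A, hA, hpat, hr⟩
    refine ⟨A.submatrix e.symm e.symm, hA.submatrix _, ?_, ?_⟩
    · intro i j hij
      rw [Matrix.submatrix_apply, hpat _ _ (fun h' => hij (e.symm.injective h')), h]
      simp
    · rw [Matrix.rank_submatrix, hr]
  · rintro ⟨A, hA, hpat, hr⟩
    refine ⟨A.submatrix e e, hA.submatrix _, ?_, ?_⟩
    · intro i j hij
      rw [Matrix.submatrix_apply, hpat _ _ (fun h' => hij (e.injective h')), h]
    · rw [Matrix.rank_submatrix, hr]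

theorem STS.msr_eq_of_isomorphic {X Y : Type*} [Fintype X] [Fintype Y] [DecidableEq X]
    [DecidableEq Y] {S : STS X} {T : STS Y} (h : S.Isomorphic T) :
    msr S.incidenceGraph = msr T.incidenceGraph := by
  obtain ⟨σ, hσ⟩ := h
  have hinv : ∀ C : Finset Y, C ∈ T.blocks → C.map σ.symm.toEmbedding ∈ S.blocks := by
    intro C hC
    rw [hσ]
    have : (C.map σ.symm.toEmbedding).map σ.toEmbedding = C := by
      rw [Finset.map_map]
      ext y; simp
    rw [this]; exact hC
  let e : (X ⊕ {B // B ∈ S.blocks}) ≃ (Y ⊕ {B // B ∈ T.blocks}) :=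
    Equiv.sumCongr σ
      { toFun := fun B => ⟨B.1.map σ.toEmbedding, (hσ B.1).1 B.2⟩
        invFun := fun C => ⟨C.1.map σ.symm.toEmbedding, hinv C.1 C.2⟩
        left_inv := by
          intro B
          apply Subtype.ext
          change (B.1.map σ.toEmbedding).map σ.symm.toEmbedding = B.1
          rw [Finset.map_map]
          ext y; simp
        right_inv := by
          intro C
          apply Subtype.ext
          change (C.1.map σ.symm.toEmbedding).map σ.toEmbedding = C.1
          rw [Finset.map_map]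
          ext y; simp }
  refine msr_congr e ?_
  rintro (x | B) (y | C)
  · rw [S.adj_pp]
    exact (T.adj_pp (σ x) (σ y)).symm
  · rw [S.adj_pb]
    refine Iff.trans ?_ (T.adj_pb (σ x) ⟨C.1.map σ.toEmbedding, (hσ C.1).1 C.2⟩).symm
    simp
  · rw [S.adj_bp]
    refine Iff.trans ?_ (T.adj_bp (σ y) ⟨B.1.map σ.toEmbedding, (hσ B.1).1 B.2⟩).symm
    simp
  · rw [S.adj_bb]
    exact (T.adj_bb ⟨B.1.map σ.toEmbedding, (hσ B.1).1 B.2⟩
      ⟨C.1.map σ.toEmbedding, (hσ C.1).1 C.2⟩).symm

/-- Transport of a Steiner triple system along a bijection. -/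
def STS.map {X Y : Type*} [DecidableEq X] [DecidableEq Y] (S : STS X) (e : X ≃ Y) : STS Y where
  blocks := S.blocks.image fun B => B.map e.toEmbedding
  card_three := by
    intro B hB
    obtain ⟨C, hC, rfl⟩ := Finset.mem_image.1 hB
    rw [Finset.card_map]; exact S.card_three C hC
  exists_unique_block := by
    intro x y hxy
    obtain ⟨B, ⟨hB, hx, hy⟩, huniq⟩ := S.exists_unique_block (e.symm x) (e.symm y)
      (fun h => hxy (e.symm.injective h))
    refine ⟨B.map e.toEmbedding, ⟨Finset.mem_image_of_mem _ hB, ?_, ?_⟩, ?_⟩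
    · rw [Finset.mem_map_equiv]; exact hx
    · rw [Finset.mem_map_equiv]; exact hy
    · rintro C ⟨hC, hxC, hyC⟩
      obtain ⟨D, hD, rfl⟩ := Finset.mem_image.1 hC
      rw [Finset.mem_map_equiv] at hxC hyC
      rw [huniq D ⟨hD, hxC, hyC⟩]

theorem STS.isomorphic_map {X Y : Type*} [DecidableEq X] [DecidableEq Y] (S : STS X) (e : X ≃ Y) :
    S.Isomorphic (S.map e) := by
  refine ⟨e, fun B => ?_⟩
  constructor
  · intro hB
    exact Finset.mem_image_of_mem _ hB
  · intro hB
    obtain ⟨C, hC, hCB⟩ := Finset.mem_image.1 hB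
    rw [Finset.map_inj] at hCB
    rw [← hCB]; exact hC

/-! ### The affine system -/

theorem ag_aux {n : ℕ} (x : Fin n → ZMod 3) : x + x + x = 0 := by
  ext i
  simp only [Pi.add_apply, Pi.zero_apply]
  generalize x i = a
  revert a
  decide

/-- The affine triple system `AG(n,3)`. -/
def agSTS (n : ℕ) : STS (Fin n → ZMod 3) :=
  STS.ofThird (fun x y => -x - y) (by intro x y _; abel)
    (by
      intro x y hxy h
      apply hxy
      have h1 : x + x + y = 0 := by
        have : x + x + y = x - (-x - y) := by abel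
        rw [this, h, sub_self]
      have h2 := ag_aux x
      have : y = x := add_left_cancel (h1.trans h2.symm)
      exact this.symm)
    (by intro x y _; abel)

theorem agSTS_lower (r : ℕ) : ∃ n₀ : ℕ, ∀ n ≥ n₀, ∀ A : Matrix
    ((Fin n → ZMod 3) ⊕ {B // B ∈ (agSTS n).blocks}) ((Fin n → ZMod 3) ⊕ {B // B ∈ (agSTS n).blocks}) ℂ,
    A.PosSemidef → (∀ i j, i ≠ j → (A i j ≠ 0 ↔ (agSTS n).incidenceGraph.Adj i j)) →
    (agSTS n).blocks.card + r < A.rank := by
  obtain ⟨K, hK, hcl⟩ := exists_large_cluster_le r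
  refine ⟨max 1 (cornersTheoremBound (1 / K)), ?_⟩
  intro n hn A hA hpat
  have hn1 : 1 ≤ n := (le_max_left _ _).trans hn
  have hn2 : cornersTheoremBound (1 / K) ≤ n := (le_max_right _ _).trans hn
  by_contra hlt
  rw [not_lt] at hlt
  obtain ⟨d, hd, w, hw⟩ := exists_vectors_of_rep (agSTS n) A hA hpat hlt
  have htriple : ∀ x y z : Fin n → ZMod 3, x ≠ y → y ≠ z → x ≠ z → x + y + z = 0 →
      ∃ c : ℝ, c < 0 ∧
        inner ℂ (w x) (w y) * inner ℂ (w y) (w z) * inner ℂ (w z) (w x) = (c : ℂ) := by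
    intro x y z hxy hyz hxz hsum
    have hz : z = -x - y := by
      have : z = x + y + z - x - y := by abel
      rw [this, hsum]; abel
    have hB : ({x, y, z} : Finset (Fin n → ZMod 3)) ∈ (agSTS n).blocks := by
      rw [hz]
      exact STS.mem_ofThird hxy
    exact hw _ hB x (by simp) y (by simp) z (by simp) hxy hyz hxz
  have hw0 : ∀ x, w x ≠ 0 := by
    intro x h0
    -- choose a line through x
    let e : Fin n → ZMod 3 := Pi.single ⟨0, hn1⟩ 1
    have he : e ≠ 0 := by
      intro h
      have := congrFun h ⟨0, hn1⟩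
      simp [e] at this
    have he2 : e + e ≠ 0 := by
      intro h
      have := congrFun h ⟨0, hn1⟩
      simp only [e, Pi.add_apply, Pi.single_eq_same, Pi.zero_apply] at this
      revert this
      decide
    have h3 := ag_aux e
    have h3x := ag_aux x
    obtain ⟨c, hc, heq⟩ := htriple x (x + e) (x + (e + e)) (by simpa using he)
      (by
        intro h
        apply he
        have := add_left_cancel h
        have h' : e + 0 = e + e := by rw [add_zero]; exact this
        exact (add_left_cancel h').symm)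
      (by simpa using he2)
      (by
        have : x + (x + e) + (x + (e + e)) = (x + x + x) + (e + e + e) := by abel
        rw [this, h3, h3x, add_zero])
    rw [h0, inner_zero_left, zero_mul, zero_mul] at heq
    have : c = 0 := by exact_mod_cast heq.symm
    exact hc.ne this
  obtain ⟨I, hI, hI'⟩ := hcl d hd (Fin n → ZMod 3) w hw0
  have hcard : Fintype.card (Fin n → ZMod 3) = 3 ^ n := by simp
  have hroth := roth_3ap_theorem (G := Fin n → ZMod 3) (1 / K) (by positivity)
    (by rw [hcard]; exact hn2.trans (Nat.lt_pow_self (by norm_num)).le) I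
    (by
      rw [div_mul_eq_mul_div, one_mul, div_le_iff₀ (by exact_mod_cast hK)]
      rw [mul_comm]
      exact_mod_cast hI)
  apply hroth
  intro a ha b hb c hc habc
  by_contra hab
  have hsum : a + b + c = 0 := by
    have : a + b + c = (a + c) + b := by abel
    rw [this, habc]
    exact ag_aux b
  have hbc : b ≠ c := by
    rintro rfl
    exact hab (add_right_cancel habc)
  have hac : a ≠ c := by
    rintro rfl
    apply hab
    -- a + a = b + b
    have h1 := ag_aux a
    have h2 := ag_aux b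
    have h3 : a + a + a = b + b + b := h1.trans h2.symm
    rw [habc] at h3
    exact add_left_cancel h3
  obtain ⟨t, ht, heq⟩ := htriple a b c hab hbc hac hsum
  have hpos := hI' a ha b hb c hc
  rw [heq, Complex.ofReal_re] at hpos
  exact lt_asymm hpos ht


/-! ### The Bose system -/

section Bose

variable {N : ℕ}

/-- Third point of the Bose system on `ZMod N × Fin 3`, where `2 * h = 1`. -/
def boseThird (h : ZMod N) (p q : ZMod N × Fin 3) : ZMod N × Fin 3 :=
  if p.2 = q.2 then ((p.1 + q.1) * h, p.2 + 1)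
  else if q.2 = p.2 + 1 then (if p.1 = q.1 then (p.1, p.2 + 2) else (2 * q.1 - p.1, p.2))
  else (if p.1 = q.1 then (p.1, p.2 + 1) else (2 * p.1 - q.1, q.2))

theorem two_mul_inj {h : ZMod N} (hh : 2 * h = 1) {a b : ZMod N} (hab : 2 * a = 2 * b) : a = b := by
  calc a = (2 * a) * h := by linear_combination (-a) * hh
    _ = (2 * b) * h := by rw [hab]
    _ = b := by linear_combination b * hh

theorem fin3_cases (i j : Fin 3) : i = j ∨ j = i + 1 ∨ i = j + 1 := by
  revert i j; decide

theorem fin3_ne (i : Fin 3) : i + 1 ≠ i ∧ i + 2 ≠ i ∧ i + 1 + 1 = i + 2 ∧ i + 2 + 1 = i ∧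
    i + 1 + 2 = i ∧ i + 1 ≠ i + 2 := by
  revert i; decide

theorem boseThird_same (h : ZMod N) (x y : ZMod N) (i : Fin 3) :
    boseThird h (x, i) (y, i) = ((x + y) * h, i + 1) := by
  simp [boseThird]

theorem boseThird_up_same (h : ZMod N) (x : ZMod N) (i : Fin 3) :
    boseThird h (x, i) (x, i + 1) = (x, i + 2) := by
  have := (fin3_ne i).1
  simp [boseThird]

theorem boseThird_up (h : ZMod N) {x y : ZMod N} (hxy : x ≠ y) (i : Fin 3) :
    boseThird h (x, i) (y, i + 1) = (2 * y - x, i) := by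
  simp [boseThird, hxy]

theorem boseThird_down_same (h : ZMod N) (x : ZMod N) (i : Fin 3) :
    boseThird h (x, i + 1) (x, i) = (x, i + 2) := by
  have h1 := fin3_ne i
  simp [boseThird, h1.2.2.1]

theorem boseThird_down (h : ZMod N) {x y : ZMod N} (hxy : x ≠ y) (i : Fin 3) :
    boseThird h (x, i + 1) (y, i) = (2 * x - y, i) := by
  have h1 := fin3_ne i
  have : ¬ i = i + 1 + 1 := by rw [h1.2.2.1]; exact h1.2.1.symm
  simp [boseThird, this, hxy]

/-- The Bose triple system of order `3 N`, `N` odd. -/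
def boseSTS [NeZero N] (h : ZMod N) (hh : 2 * h = 1) : STS (ZMod N × Fin 3) :=
  STS.ofThird (boseThird h)
    (by
      rintro ⟨x, i⟩ ⟨y, j⟩ hne
      rcases fin3_cases i j with rfl | rfl | rfl
      · rw [boseThird_same, boseThird_same, add_comm]
      · by_cases hxy : x = y
        · subst hxy
          rw [boseThird_up_same, boseThird_down_same]
        · rw [boseThird_up h hxy, boseThird_down h (Ne.symm hxy)]
      · by_cases hxy : x = y
        · subst hxy
          rw [boseThird_up_same, boseThird_down_same]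
        · rw [boseThird_up h (Ne.symm hxy), boseThird_down h hxy])
    (by
      rintro ⟨x, i⟩ ⟨y, j⟩ hne
      rcases fin3_cases i j with rfl | rfl | rfl
      · rw [boseThird_same]
        intro h'
        exact (fin3_ne i).1 (congrArg Prod.snd h')
      · by_cases hxy : x = y
        · subst hxy
          rw [boseThird_up_same]
          intro h'
          exact (fin3_ne i).2.1 (congrArg Prod.snd h')
        · rw [boseThird_up h hxy]
          intro h'
          have h1 : 2 * y - x = x := congrArg Prod.fst h'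
          apply hxy
          apply two_mul_inj hh
          linear_combination -h1
      · by_cases hxy : x = y
        · subst hxy
          rw [boseThird_down_same]
          intro h'
          exact (fin3_ne j).2.2.2.2.2 (congrArg Prod.snd h').symm
        · rw [boseThird_down h hxy]
          intro h'
          exact (fin3_ne j).1 (congrArg Prod.snd h').symm)
    (by
      rintro ⟨x, i⟩ ⟨y, j⟩ hne
      rcases fin3_cases i j with rfl | rfl | rfl
      · have hxy : x ≠ y := fun h' => hne (by rw [h'])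
        have hx : x ≠ (x + y) * h := by
          intro h'
          apply hxy
          have : 2 * x = (x + y) * (2 * h) := by linear_combination 2 * h'
          rw [hh, mul_one] at this
          linear_combination this
        rw [boseThird_same, boseThird_up h hx]
        congr 1
        linear_combination (x + y) * hh
      · by_cases hxy : x = y
        · subst hxy
          rw [boseThird_up_same]
          have h1 := fin3_ne i
          have h2 := boseThird_down_same h x (i + 2)
          rw [h1.2.2.2.1] at h2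
          rw [h2]
          have h3 : ∀ i : Fin 3, i + 2 + 2 = i + 1 := by decide
          rw [h3 i]
        · rw [boseThird_up h hxy, boseThird_same]
          congr 1
          linear_combination y * hh
      · by_cases hxy : x = y
        · subst hxy
          rw [boseThird_down_same]
          have h1 := fin3_ne j
          have h2 := boseThird_up_same h x (j + 1)
          rw [h1.2.2.1, h1.2.2.2.2.1] at h2
          rw [h2]
        · rw [boseThird_down h hxy]
          have hx : x ≠ 2 * x - y := by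
            intro h'
            apply hxy
            linear_combination -h'
          rw [boseThird_down h hx]
          congr 1
          ring)

/-- Real and imaginary parts of the standard character. -/
theorem exists_trig [NeZero N] {h : ZMod N} (hh : 2 * h = 1) : ∃ C S : ZMod N → ℝ,
    (∀ x y, C (x - y) = C x * C y + S x * S y) ∧ (∀ x y, S (x - y) = S x * C y - C x * S y) ∧
    (∀ x, C x ^ 2 + S x ^ 2 = 1) ∧ C 0 = 1 ∧ S 0 = 0 ∧ ∀ x, x ≠ 0 → S x ≠ 0 := by
  have hnorm : ∀ x : ZMod N, ‖ZMod.stdAddChar x‖ = 1 := fun x => by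
    rw [ZMod.stdAddChar_apply]; exact Circle.norm_coe _
  have hsq : ∀ x : ZMod N, (ZMod.stdAddChar x).re ^ 2 + (ZMod.stdAddChar x).im ^ 2 = 1 := by
    intro x
    have h1 := hnorm x
    have h2 := Complex.normSq_eq_norm_sq (ZMod.stdAddChar x)
    rw [h1, Complex.normSq_apply] at h2
    nlinarith
  have hneg : ∀ y : ZMod N, ZMod.stdAddChar (-y) = (starRingEnd ℂ) (ZMod.stdAddChar y) := by
    intro y
    rw [AddChar.map_neg_eq_inv, Complex.inv_def, Complex.normSq_eq_norm_sq, hnorm y]
    simp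
  refine ⟨fun x => (ZMod.stdAddChar x).re, fun x => (ZMod.stdAddChar x).im, ?_, ?_, hsq, ?_, ?_, ?_⟩
  · intro x y
    change (ZMod.stdAddChar (x - y)).re = _
    rw [sub_eq_add_neg, AddChar.map_add_eq_mul, hneg, Complex.mul_re, Complex.conj_re,
      Complex.conj_im]
    ring
  · intro x y
    change (ZMod.stdAddChar (x - y)).im = _
    rw [sub_eq_add_neg, AddChar.map_add_eq_mul, hneg, Complex.mul_im, Complex.conj_re,
      Complex.conj_im]
    ring
  · simp
  · simp
  · intro x hx hS
    apply hx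
    have h1 := hsq x
    simp only at hS
    rw [hS] at h1
    have h2 : ZMod.stdAddChar (x + x) = (1 : ℂ) := by
      rw [AddChar.map_add_eq_mul]
      apply Complex.ext
      · rw [Complex.mul_re, hS, Complex.one_re]
        nlinarith
      · rw [Complex.mul_im, hS, Complex.one_im]
        ring
    have h3 : x + x = 0 := by
      apply ZMod.injective_stdAddChar
      rw [h2, AddChar.map_zero_eq_one]
    apply two_mul_inj hh
    rw [two_mul, h3, mul_zero]

theorem exists_small [NeZero N] (S : ZMod N → ℝ) (hS : ∀ x, x ≠ 0 → S x ≠ 0) :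
    ∃ s : ℝ, 0 < s ∧ s ≤ 1 ∧ ∀ x, x ≠ 0 → s ^ 2 < S x ^ 2 := by
  classical
  obtain ⟨m, hm0, hm1, hm⟩ : ∃ m : ℝ, 0 < m ∧ m ≤ 1 ∧ ∀ x, x ≠ 0 → m ≤ |S x| := by
    have hfin : ∀ T : Finset (ZMod N), ∃ m : ℝ, 0 < m ∧ m ≤ 1 ∧ ∀ x ∈ T, x ≠ 0 → m ≤ |S x| := by
      intro T
      induction T using Finset.induction_on with
      | empty => exact ⟨1, one_pos, le_rfl, by simp⟩
      | insert a T ha ih =>
        obtain ⟨m, h0, h1, h2⟩ := ih
        by_cases ha0 : a = 0
        · refine ⟨m, h0, h1, ?_⟩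
          intro x hx hx0
          rcases Finset.mem_insert.1 hx with rfl | hx
          · exact absurd ha0 hx0
          · exact h2 x hx hx0
        · refine ⟨min m |S a|, lt_min h0 (abs_pos.2 (hS a ha0)), (min_le_left _ _).trans h1, ?_⟩
          intro x hx hx0
          rcases Finset.mem_insert.1 hx with rfl | hx
          · exact min_le_right _ _
          · exact (min_le_left _ _).trans (h2 x hx hx0)
    obtain ⟨m, h0, h1, h2⟩ := hfin Finset.univ
    exact ⟨m, h0, h1, fun x hx => h2 x (Finset.mem_univ _) hx⟩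
  refine ⟨m / 2, by positivity, by linarith, ?_⟩
  intro x hx
  have h1 := hm x hx
  rw [← sq_abs (S x)]
  nlinarith

theorem boseSTS_upper [NeZero N] (h : ZMod N) (hh : 2 * h = 1) : ∃ A : Matrix
    ((ZMod N × Fin 3) ⊕ {B // B ∈ (boseSTS h hh).blocks})
    ((ZMod N × Fin 3) ⊕ {B // B ∈ (boseSTS h hh).blocks}) ℂ,
    A.PosSemidef ∧ (∀ i j, i ≠ j → (A i j ≠ 0 ↔ (boseSTS h hh).incidenceGraph.Adj i j)) ∧
    A.rank ≤ (boseSTS h hh).blocks.card + 9 := by
  obtain ⟨C, S, hC, hS, hCS, hC0, hS0, hSne⟩ := exists_trig hh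
  obtain ⟨s, hs0, hs1, hs⟩ := exists_small S hSne
  let σ : Fin 3 → ℝ := ![s, s, -s]
  have hσ : ∀ i, σ i ^ 2 = s ^ 2 := by
    intro i; fin_cases i <;> simp [σ]
  have hσprod : ∀ i, σ i * σ (i + 1) * σ (i + 2) = - s ^ 3 := by
    intro i; fin_cases i <;> simp [σ] <;> ring
  let V : (Fin 3 × Fin 3) → (ZMod N × Fin 3) → ℝ := fun k p =>
    ![if p.2 = k.1 then 2 else 0,
      if p.2 = k.1 then C p.1 else if p.2 = k.1 + 1 then S p.1 + σ k.1 * C p.1 else 0,
      if p.2 = k.1 then S p.1 else if p.2 = k.1 + 1 then - C p.1 + σ k.1 * S p.1 else 0] k.2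
  have hWsymm : ∀ p q, ∑ k, V k p * V k q = ∑ k, V k q * V k p := by
    intro p q; simp only [mul_comm]
  have hWsame : ∀ x y i, ∑ k, V k (x, i) * V k (y, i) = 4 + (2 + s ^ 2) * C (x - y) := by
    intro x y i
    rw [hC]
    fin_cases i <;> simp [V, σ, Fintype.sum_prod_type, Fin.sum_univ_three] <;> ring
  have hWup : ∀ x y i, ∑ k, V k (x, i) * V k (y, i + 1) = S (y - x) + σ i * C (y - x) := by
    intro x y i
    rw [hC, hS]
    fin_cases i <;> simp [V, σ, Fintype.sum_prod_type, Fin.sum_univ_three] <;> ring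
  have hCle : ∀ x, |C x| ≤ 1 := by
    intro x
    have := hCS x
    rw [abs_le_one_iff_mul_self_le_one]
    nlinarith [sq_nonneg (S x)]
  have hWsame_pos : ∀ x y i, 0 < ∑ k, V k (x, i) * V k (y, i) := by
    intro x y i
    rw [hWsame]
    have h1 := (abs_le.1 (hCle (x - y))).1
    nlinarith [sq_nonneg s, mul_le_mul hs1 hs1 hs0.le (by norm_num)]
  have hCneg : ∀ x, C (-x) = C x := by
    intro x
    have := hC 0 x
    rw [zero_sub, hC0, hS0] at this
    linarith
  have hSneg : ∀ x, S (-x) = - S x := by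
    intro x
    have := hS 0 x
    rw [zero_sub, hC0, hS0] at this
    linarith
  have hQ : ∀ d i, d ≠ 0 → (S d + σ i * C d) * (S (-d) + σ i * C (-d)) < 0 := by
    intro d i hd
    rw [hCneg, hSneg]
    have h1 := hs d hd
    have h2 := hCS d
    have h3 := hσ i
    have : (S d + σ i * C d) * (-S d + σ i * C d) = σ i ^ 2 * C d ^ 2 - S d ^ 2 := by ring
    rw [this, h3]
    nlinarith [sq_nonneg (S d), sq_nonneg (C d), sq_nonneg s]
  obtain ⟨A, hA1, hA2, hA3⟩ := exists_rep_of_vectors (boseSTS h hh) V (by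
    intro p q r hpq hqr hpr hB
    have hr := STS.eq_third hpq hqr hpr hB
    subst hr
    obtain ⟨x, i⟩ := p
    obtain ⟨y, j⟩ := q
    rcases fin3_cases i j with rfl | rfl | rfl
    · have hxy : x ≠ y := fun h' => hpq (by rw [h'])
      rw [boseThird_same]
      have e1 := hWup y ((x + y) * h) i
      have e2 := hWup x ((x + y) * h) i
      rw [hWsymm ((x + y) * h, i + 1) (x, i), e1, e2]
      have hd : (x + y) * h - x ≠ 0 := by
        intro h'
        apply hxy
        have : (x + y) * (2 * h) = 2 * x := by linear_combination 2 * h'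
        rw [hh, mul_one] at this
        linear_combination -this
      have hneg : (x + y) * h - y = -((x + y) * h - x) := by
        linear_combination (x + y) * hh
      rw [hneg, mul_assoc]
      apply mul_neg_of_pos_of_neg (hWsame_pos x y i)
      rw [mul_comm]
      exact hQ _ i hd
    · by_cases hxy : x = y
      · subst hxy
        rw [boseThird_up_same]
        have e1 := hWup x x i
        have e2 := hWup x x (i + 1)
        have e3 := hWup x x (i + 2)
        have f := fin3_ne i
        rw [f.2.2.1] at e2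
        rw [f.2.2.2.1] at e3
        rw [e1, e2, e3, sub_self, hS0, hC0]
        have := hσprod i
        have h3 : 0 < s ^ 3 := by positivity
        nlinarith
      · rw [boseThird_up h hxy]
        have e1 := hWup x y i
        have e2 := hWup (2 * y - x) y i
        rw [hWsymm (y, i + 1), e1, e2]
        have hd : y - x ≠ 0 := sub_ne_zero.2 (Ne.symm hxy)
        have hneg : y - (2 * y - x) = -(y - x) := by ring
        rw [hneg]
        exact mul_neg_of_neg_of_pos (hQ _ i hd) (hWsame_pos _ _ _)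
    · by_cases hxy : x = y
      · subst hxy
        rw [boseThird_down_same]
        have e1 := hWup x x j
        have e2 := hWup x x (j + 1)
        have e3 := hWup x x (j + 2)
        have f := fin3_ne j
        rw [f.2.2.1] at e2
        rw [f.2.2.2.1] at e3
        rw [hWsymm (x, j + 1) (x, j), hWsymm (x, j) (x, j + 2), hWsymm (x, j + 2) (x, j + 1),
          e1, e2, e3, sub_self, hS0, hC0]
        have := hσprod j
        have h3 : 0 < s ^ 3 := by positivity
        nlinarith
      · rw [boseThird_down h hxy]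
        have e1 := hWup y x j
        have e2 := hWup (2 * x - y) x j
        rw [hWsymm (x, j + 1) (y, j), e1, e2]
        have hd : x - y ≠ 0 := sub_ne_zero.2 hxy
        have hneg : x - (2 * x - y) = -(x - y) := by ring
        rw [hneg]
        have := mul_neg_of_neg_of_pos (hQ _ j hd) (hWsame_pos y (2 * x - y) j)
        nlinarith)
  refine ⟨A, hA1, hA2, ?_⟩
  simpa using hA3

end Bose



/-! ### Conclusion -/

theorem exists_rep {X : Type*} [Fintype X] [DecidableEq X] (S : STS X) :
    ∃ A : Matrix (X ⊕ {B // B ∈ S.blocks}) (X ⊕ {B // B ∈ S.blocks}) ℂ, A.PosSemidef ∧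
      (∀ i j, i ≠ j → (A i j ≠ 0 ↔ S.incidenceGraph.Adj i j)) := by
  obtain ⟨A, h1, h2, _⟩ := exists_rep_of_vectors S
    (fun k x : X => (Fintype.card X : ℝ) * (if k = x then 1 else 0) - 1) (by
      intro x y z hxy hyz hxz _
      have hpos : (0 : ℝ) < Fintype.card X := by
        have : 0 < Fintype.card X := Fintype.card_pos_iff.2 ⟨x⟩
        exact_mod_cast this
      have key : ∀ a b : X, a ≠ b → ∑ k, ((Fintype.card X : ℝ) * (if k = a then 1 else 0) - 1) *
          ((Fintype.card X : ℝ) * (if k = b then 1 else 0) - 1) = - (Fintype.card X : ℝ) := by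
        intro a b hab
        have : ∀ k : X, ((Fintype.card X : ℝ) * (if k = a then 1 else 0) - 1) *
            ((Fintype.card X : ℝ) * (if k = b then 1 else 0) - 1) =
            (1 - (Fintype.card X : ℝ) * (if k = a then 1 else 0)) -
              (Fintype.card X : ℝ) * (if k = b then 1 else 0) := by
          intro k
          by_cases h1 : k = a
          · have h2 : k ≠ b := fun h => hab (h1.symm.trans h)
            simp [h1, hab]
          · simp [h1]
        rw [Finset.sum_congr rfl (fun k _ => this k)]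
        rw [Finset.sum_sub_distrib, Finset.sum_sub_distrib, ← Finset.mul_sum, ← Finset.mul_sum]
        simp
      rw [key x y hxy, key y z hyz, key z x hxz.symm]
      have : -(Fintype.card X : ℝ) * -(Fintype.card X : ℝ) * -(Fintype.card X : ℝ) =
        -((Fintype.card X : ℝ) ^ 3) := by ring
      rw [this, neg_lt_zero]
      positivity)
  exact ⟨A, h1, h2⟩

/-- **Main theorem.** For every `K` and every sufficiently large `n` there are two nonisomorphic
Steiner triple systems of order `3 ^ n` whose incidence graphs have minimum semidefinite ranks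
differing by more than `K`. -/
theorem main : ∀ K : ℕ, ∃ n₀ : ℕ, ∀ n ≥ n₀, ∃ S₁ S₂ : STS (Fin (3 ^ n)),
    ¬ S₁.Isomorphic S₂ ∧ msr S₂.incidenceGraph + K < msr S₁.incidenceGraph := by
  intro K
  obtain ⟨n₀, hn₀⟩ := agSTS_lower (9 + K)
  refine ⟨n₀ + 1, ?_⟩
  intro n hn
  obtain ⟨k, rfl⟩ : ∃ k, n = k + 1 := ⟨n - 1, by omega⟩
  have hN : NeZero (3 ^ k) := ⟨by positivity⟩
  -- the inverse of two
  obtain ⟨h, hh⟩ : ∃ h : ZMod (3 ^ k), 2 * h = 1 := by
    have hodd : Odd (3 ^ k) := Odd.pow (by decide)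
    obtain ⟨m, hm⟩ := hodd
    refine ⟨((m + 1 : ℕ) : ZMod (3 ^ k)), ?_⟩
    have h1 : ((3 ^ k : ℕ) : ZMod (3 ^ k)) = 0 := ZMod.natCast_self _
    have h2 : ((2 * m + 1 : ℕ) : ZMod (3 ^ k)) = 0 := by rw [← hm]; exact h1
    push_cast at h2 ⊢
    linear_combination h2
  have c1 : Fintype.card (Fin (k + 1) → ZMod 3) = 3 ^ (k + 1) := by simp
  have c2 : Fintype.card (ZMod (3 ^ k) × Fin 3) = 3 ^ (k + 1) := by
    rw [Fintype.card_prod, ZMod.card, Fintype.card_fin, pow_succ]
  let e₁ : (Fin (k + 1) → ZMod 3) ≃ Fin (3 ^ (k + 1)) := Fintype.equivFinOfCardEq c1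
  let e₂ : (ZMod (3 ^ k) × Fin 3) ≃ Fin (3 ^ (k + 1)) := Fintype.equivFinOfCardEq c2
  have i1 := STS.msr_eq_of_isomorphic ((agSTS (k + 1)).isomorphic_map e₁)
  have i2 := STS.msr_eq_of_isomorphic ((boseSTS h hh).isomorphic_map e₂)
  have hblocks : (agSTS (k + 1)).blocks.card = (boseSTS h hh).blocks.card := by
    have h1 := (agSTS (k + 1)).card_blocks
    have h2 := (boseSTS h hh).card_blocks
    rw [c1] at h1
    rw [c2] at h2
    omega
  have hlower : (agSTS (k + 1)).blocks.card + (9 + K) < msr (agSTS (k + 1)).incidenceGraph := by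
    obtain ⟨A, hA1, hA2⟩ := exists_rep (agSTS (k + 1))
    have hne : {m : ℕ | ∃ A : Matrix ((Fin (k + 1) → ZMod 3) ⊕ {B // B ∈ (agSTS (k + 1)).blocks})
        ((Fin (k + 1) → ZMod 3) ⊕ {B // B ∈ (agSTS (k + 1)).blocks}) ℂ, A.PosSemidef ∧
        (∀ i j, i ≠ j → (A i j ≠ 0 ↔ (agSTS (k + 1)).incidenceGraph.Adj i j)) ∧
        A.rank = m}.Nonempty := ⟨A.rank, A, hA1, hA2, rfl⟩
    obtain ⟨A', hA1', hA2', hr⟩ := Nat.sInf_mem hne
    have := hn₀ (k + 1) (by omega) A' hA1' hA2'
    rw [hr] at this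
    exact this
  have hupper : msr (boseSTS h hh).incidenceGraph ≤ (boseSTS h hh).blocks.card + 9 := by
    obtain ⟨A, hA1, hA2, hA3⟩ := boseSTS_upper h hh
    refine le_trans (Nat.sInf_le ?_) hA3
    exact ⟨A, hA1, hA2, rfl⟩
  have hlt : msr ((boseSTS h hh).map e₂).incidenceGraph + K <
      msr ((agSTS (k + 1)).map e₁).incidenceGraph := by
    rw [← i1, ← i2]
    omega
  refine ⟨(agSTS (k + 1)).map e₁, (boseSTS h hh).map e₂, ?_, hlt⟩
  intro hiso
  have := STS.msr_eq_of_isomorphic hiso
  omega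

end Pool.Agent.helper40.StsMsr
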